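import Mathlib

set_option autoImplicit false

open scoped MeasureTheory ENNReal
open MeasureTheory Set

set_option linter.unusedSectionVars false
set_option linter.unusedVariables false

namespace Pool.Agent.H270R2.St

variable {E : Type*} [MetricSpace E] [MeasurableSpace E] [BorelSpace E]

lemma H_lip {f : E → ℝ} (hf : LipschitzWith 1 f) (A : Set E) :
    volume (f '' A) ≤ μH[1] A := by
  have h := hf.hausdorffMeasure_image_le (d := 1) zero_le_one A
  rw [hausdorffMeasure_real] at h
  simpa using h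

lemma H_slab {f : E → ℝ} (hf : LipschitzWith 1 f) {K : Set E} (hK : IsPreconnected K) {x y : E}
    (hx : x ∈ K) (hy : y ∈ K) {a b : ℝ} (ha : f x ≤ a) (hb : b ≤ f y) :
    ENNReal.ofReal (b - a) ≤ μH[1] (K ∩ f ⁻¹' Ioo a b) := by
  have h1 : Ioo a b ⊆ f '' (K ∩ f ⁻¹' Ioo a b) := by
    intro t ht
    obtain ⟨z, hz, rfl⟩ := hK.intermediate_value hx hy hf.continuous.continuousOn
      ⟨ha.trans ht.1.le, ht.2.le.trans hb⟩
    exact ⟨z, ⟨hz, ht⟩, rfl⟩
  calc ENNReal.ofReal (b - a) = volume (Ioo a b) := by rw [Real.volume_Ioo]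
    _ ≤ volume (f '' (K ∩ f ⁻¹' Ioo a b)) := measure_mono h1
    _ ≤ _ := H_lip hf _

lemma lip_dist (x : E) : LipschitzWith 1 (fun y => dist x y) := LipschitzWith.dist_right x

lemma H_conn {K : Set E} (hK : IsPreconnected K) {x y : E} (hx : x ∈ K) (hy : y ∈ K) :
    ENNReal.ofReal (dist x y) ≤ μH[1] K := by
  have h := H_slab (lip_dist x) hK hx hy (a := 0) (b := dist x y) (by simp) le_rfl
  rw [sub_zero] at h
  exact h.trans (measure_mono inter_subset_left)

/-- If a connected set `K` meets `Y` and contains a point `z`, then the part of `K` outside `Y`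
has length at least the distance from `z` to `Y`. -/
lemma H_diff {K Y : Set E} (hK : IsPreconnected K) {x z : E} (hx : x ∈ K) (hxY : x ∈ Y)
    (hz : z ∈ K) : ENNReal.ofReal (Metric.infDist z Y) ≤ μH[1] (K \ Y) := by
  have h := H_slab (Metric.lipschitz_infDist_pt Y) hK hx hz (a := 0) (b := Metric.infDist z Y)
    (by rw [Metric.infDist_zero_of_mem hxY]) le_rfl
  rw [sub_zero] at h
  refine h.trans (measure_mono ?_)
  rintro w ⟨hw, hw'⟩
  refine ⟨hw, fun hwY => ?_⟩
  have : Metric.infDist w Y = 0 := Metric.infDist_zero_of_mem hwY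
  have h2 := hw'.1
  simp only [this, lt_self_iff_false] at h2

lemma noAtom (x : E) : μH[1] ({x} : Set E) = 0 := by
  have := Measure.nullSingletonClass_hausdorff (X := E) (d := 1) one_pos
  exact measure_singleton x

/-- Cut lemma. -/
lemma cut {K : Set E} (hKc : IsClosed K) (hK : IsPreconnected K) {f : E → ℝ} (hf : Continuous f)
    {t : ℝ} {q : E} (hq : K ∩ f ⁻¹' {t} = {q}) : IsPreconnected (K ∩ f ⁻¹' Iic t) := by
  rw [isPreconnected_closed_iff]
  have hqK : q ∈ K ∩ f ⁻¹' {t} := by rw [hq]; rfl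
  have key : ∀ A B : Set E, IsClosed A → IsClosed B → K ∩ f ⁻¹' Iic t ⊆ A ∪ B →
      (K ∩ f ⁻¹' Iic t ∩ A).Nonempty → (K ∩ f ⁻¹' Iic t ∩ B).Nonempty → q ∈ A →
      (K ∩ f ⁻¹' Iic t ∩ (A ∩ B)).Nonempty := by
    intro A B hA hB hAB hneA hneB hqA
    have h := (isPreconnected_closed_iff.1 hK) (A ∪ f ⁻¹' Ici t) (B ∩ f ⁻¹' Iic t)
      (hA.union (isClosed_Ici.preimage hf)) (hB.inter (isClosed_Iic.preimage hf)) (by
        intro x hx
        rcases le_total (f x) t with h | h
        · rcases hAB ⟨hx, h⟩ with h' | h'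
          · exact Or.inl (Or.inl h')
          · exact Or.inr ⟨h', h⟩
        · exact Or.inl (Or.inr h)) ⟨q, hqK.1, Or.inl hqA⟩ (by
        obtain ⟨x, hx, hxB⟩ := hneB
        exact ⟨x, hx.1, hxB, hx.2⟩)
    obtain ⟨x, hxK, hx1, hx2, hx3⟩ := h
    refine ⟨x, ⟨hxK, hx3⟩, ?_, hx2⟩
    rcases hx1 with h | h
    · exact h
    · have h4 : f x = t := le_antisymm hx3 h
      have : x ∈ K ∩ f ⁻¹' {t} := ⟨hxK, h4⟩
      rw [hq] at this
      rw [mem_singleton_iff.1 this]; exact hqA
  intro A B hA hB hAB hneA hneB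
  have hqt : f q ≤ t := le_of_eq hqK.2
  rcases hAB ⟨hqK.1, hqt⟩ with h | h
  · exact key A B hA hB hAB hneA hneB h
  · have := key B A hB hA (by rwa [union_comm]) hneB hneA h
    rwa [inter_comm B A] at this

lemma cut' {K : Set E} (hKc : IsClosed K) (hK : IsPreconnected K) {f : E → ℝ} (hf : Continuous f)
    {t : ℝ} {q : E} (hq : K ∩ f ⁻¹' {t} = {q}) : IsPreconnected (K ∩ f ⁻¹' Ici t) := by
  have h := cut hKc hK (f := fun x => - f x) hf.neg (t := -t) (q := q) (by
    rw [← hq]; ext x; simp)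
  have e : (fun x => - f x) ⁻¹' Iic (-t) = f ⁻¹' Ici t := by ext x; simp
  rwa [e] at h

/-- Two point slab. -/
lemma H_slab2 {f : E → ℝ} (hf : LipschitzWith 1 f) {K : Set E} (hK : IsCompact K) {a b : ℝ}
    (h2 : ∀ t ∈ Ioo a b, ∃ x ∈ K, ∃ y ∈ K, x ≠ y ∧ f x = t ∧ f y = t) :
    2 * ENNReal.ofReal (b - a) ≤ μH[1] (K ∩ f ⁻¹' Ioo a b) := by
  classical
  set A := K ∩ f ⁻¹' Ioo a b with hA
  -- levels with two points at distance > δ
  have key : ∀ δ : ℝ, 0 < δ →
      2 * volume {t | t ∈ Ioo a b ∧ ∃ x ∈ K, ∃ y ∈ K, δ < dist x y ∧ f x = t ∧ f y = t} ≤ μH[1] A := by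
    intro δ hδ
    obtain ⟨s, hsK, hsf, hcov⟩ := hK.finite_cover_balls (e := δ / 2) (by positivity)
    -- enumerate the finite cover
    obtain ⟨n, g, rfl⟩ : ∃ (n : ℕ) (g : Fin n → E), range g = s := by
      obtain ⟨n, g, hg⟩ := hsf.fin_embedding
      exact ⟨n, g, hg⟩
    let P : Fin n → Set E := fun i => A ∩ (Metric.ball (g i) (δ / 2) \ ⋃ j : {j : Fin n // j < i}, Metric.ball (g j) (δ / 2))
    have hAm : MeasurableSet A :=
      hK.measurableSet.inter (hf.continuous.measurable measurableSet_Ioo)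
    have hPm : ∀ i, MeasurableSet (P i) := by
      intro i
      exact hAm.inter (measurableSet_ball.diff (MeasurableSet.iUnion (fun j => measurableSet_ball)))
    have hPd : Pairwise (Function.onFun Disjoint P) := by
      have key2 : ∀ i j : Fin n, i < j → Disjoint (P i) (P j) := by
        intro i j hij
        rw [Set.disjoint_left]
        rintro x ⟨_, hx1, _⟩ ⟨_, _, hx2⟩
        exact hx2 (mem_iUnion.2 ⟨⟨i, hij⟩, hx1⟩)
      intro i j hij
      rcases lt_or_gt_of_ne hij with h | h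
      · exact key2 i j h
      · exact (key2 j i h).symm
    have hPcov : ∀ x ∈ A, ∃ i, x ∈ P i := by
      intro x hx
      have hx' := hcov hx.1
      simp only [mem_iUnion, exists_prop] at hx'
      obtain ⟨y, ⟨i0, rfl⟩, hy⟩ := hx'
      have hex : ∃ i : Fin n, x ∈ Metric.ball (g i) (δ / 2) := ⟨i0, hy⟩
      let S : Finset (Fin n) := Finset.univ.filter (fun i => x ∈ Metric.ball (g i) (δ / 2))
      have hS : S.Nonempty := ⟨i0, by simp only [S, Finset.mem_filter, Finset.mem_univ, true_and]; exact hy⟩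
      refine ⟨S.min' hS, hx, ?_, ?_⟩
      · have := S.min'_mem hS
        simp only [S, Finset.mem_filter, Finset.mem_univ, true_and] at this
        exact this
      · intro hx2
        obtain ⟨⟨j, hj⟩, hj2⟩ := mem_iUnion.1 hx2
        have : j ∈ S := by
          simp only [S, Finset.mem_filter, Finset.mem_univ, true_and]; exact hj2
        exact absurd (S.min'_le j this) (not_le.2 hj)
    have hsum : ∑ i, volume (f '' P i) ≤ μH[1] A := by
      calc ∑ i, volume (f '' P i) ≤ ∑ i, μH[1] (P i) := Finset.sum_le_sum (fun i _ => H_lip hf _)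
        _ = μH[1] (⋃ i, P i) := by
            rw [measure_iUnion hPd hPm, tsum_fintype]
        _ ≤ μH[1] A := measure_mono (iUnion_subset (fun i => inter_subset_left))
    refine le_trans ?_ hsum
    -- measurable hulls
    let M : Fin n → Set ℝ := fun i => toMeasurable volume (f '' P i)
    have hMm : ∀ i, MeasurableSet (M i) := fun i => measurableSet_toMeasurable _ _
    have hM : ∀ i, volume (M i) = volume (f '' P i) := fun i => measure_toMeasurable _
    let F : ℝ → ℝ≥0∞ := fun t => ∑ i, (M i).indicator (fun _ => (1:ℝ≥0∞)) t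
    have hFm : Measurable F :=
      Finset.measurable_sum _ (fun i _ => measurable_const.indicator (hMm i))
    have hF : ∫⁻ t, F t = ∑ i, volume (f '' P i) := by
      rw [lintegral_finsetSum _ (fun i _ => measurable_const.indicator (hMm i))]
      apply Finset.sum_congr rfl
      intro i _
      rw [lintegral_indicator (hMm i)]
      simp [hM]
    rw [← hF]
    calc 2 * volume {t | t ∈ Ioo a b ∧ ∃ x ∈ K, ∃ y ∈ K, δ < dist x y ∧ f x = t ∧ f y = t}
        ≤ 2 * volume {t | 2 ≤ F t} := by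
          gcongr
          rename_i t
          rintro ⟨ht, x, hx, y, hy, hxy, hfx, hfy⟩
          have hxA : x ∈ A := ⟨hx, by rw [mem_preimage, hfx]; exact ht⟩
          have hyA : y ∈ A := ⟨hy, by rw [mem_preimage, hfy]; exact ht⟩
          obtain ⟨i, hi⟩ := hPcov x hxA
          obtain ⟨j, hj⟩ := hPcov y hyA
          have hij : i ≠ j := by
            rintro rfl
            have h1 : dist x (g i) < δ / 2 := hi.2.1
            have h2 : dist y (g i) < δ / 2 := hj.2.1
            have := dist_triangle_right x y (g i)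
            linarith
          have m1 : t ∈ M i := subset_toMeasurable _ _ ⟨x, hi, hfx⟩
          have m2 : t ∈ M j := subset_toMeasurable _ _ ⟨y, hj, hfy⟩
          show 2 ≤ ∑ i, (M i).indicator (fun _ => (1:ℝ≥0∞)) t
          calc (2:ℝ≥0∞) = ∑ k ∈ ({i, j} : Finset (Fin n)), (M k).indicator (fun _ => (1:ℝ≥0∞)) t := by
                rw [Finset.sum_pair hij, indicator_of_mem m1, indicator_of_mem m2]; norm_num
            _ ≤ _ := Finset.sum_le_sum_of_subset (Finset.subset_univ _)
      _ ≤ ∫⁻ t, F t := mul_meas_ge_le_lintegral hFm 2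
  -- monotone union
  have hmono : Monotone (fun n : ℕ => {t | t ∈ Ioo a b ∧ ∃ x ∈ K, ∃ y ∈ K,
      1 / ((n:ℝ) + 1) < dist x y ∧ f x = t ∧ f y = t}) := by
    intro m n hmn t
    rintro ⟨ht, x, hx, y, hy, hxy, h⟩
    refine ⟨ht, x, hx, y, hy, lt_of_le_of_lt ?_ hxy, h⟩
    exact Nat.one_div_le_one_div hmn
  have hun : Ioo a b = ⋃ n : ℕ, {t | t ∈ Ioo a b ∧ ∃ x ∈ K, ∃ y ∈ K,
      1 / ((n:ℝ) + 1) < dist x y ∧ f x = t ∧ f y = t} := by
    ext t
    simp only [mem_iUnion, mem_ofPred_eq]
    constructor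
    · intro ht
      obtain ⟨x, hx, y, hy, hxy, h⟩ := h2 t ht
      obtain ⟨n, hn⟩ := exists_nat_one_div_lt (dist_pos.2 hxy)
      exact ⟨n, ht, x, hx, y, hy, hn, h⟩
    · rintro ⟨n, ht, _⟩; exact ht
  rw [← Real.volume_Ioo, hun, hmono.measure_iUnion, ENNReal.mul_iSup]
  apply iSup_le
  intro n
  exact key _ (by positivity)

end Pool.Agent.H270R2.St
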