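import Mathlib
import Pool.Agent.H270R2.St.Basic

set_option autoImplicit false

open scoped MeasureTheory ENNReal
open MeasureTheory Set

set_option linter.unusedSectionVars false
set_option linter.unusedVariables false

namespace Pool.Agent.H270R2.St

variable {E : Type*} [MetricSpace E]

lemma nested {c : Set (Set E)} (hne : c.Nonempty) (hch : IsChain (· ⊆ ·) c)
    (hc : ∀ K ∈ c, IsCompact K ∧ IsPreconnected K) :
    IsCompact (⋂₀ c) ∧ IsPreconnected (⋂₀ c) := by
  have hcomp : IsCompact (⋂₀ c) := by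
    obtain ⟨K, hK⟩ := hne
    exact (hc K hK).1.of_isClosed_subset (isClosed_sInter (fun t ht => (hc t ht).1.isClosed))
      (sInter_subset_of_mem hK)
  refine ⟨hcomp, ?_⟩
  rw [isPreconnected_closed_iff]
  intro A B hA hB hAB hneA hneB
  by_contra hcon
  rw [not_nonempty_iff_eq_empty] at hcon
  have hdisj : Disjoint (⋂₀ c ∩ A) (⋂₀ c ∩ B) := by
    rw [Set.disjoint_left]
    rintro x ⟨hx, hxA⟩ ⟨_, hxB⟩
    have : x ∈ ⋂₀ c ∩ (A ∩ B) := ⟨hx, hxA, hxB⟩
    rw [hcon] at this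
    exact this
  obtain ⟨U, V, hU, hV, hAU, hBV, hUV⟩ := normal_separation (hcomp.isClosed.inter hA)
    (hcomp.isClosed.inter hB) hdisj
  have : Nonempty c := hne.to_subtype
  obtain ⟨⟨K, hK⟩, hKU⟩ := exists_subset_nhds_of_isCompact' (V := fun K : c => (K : Set E)) (by
      intro a b
      rcases hch.total a.2 b.2 with h | h
      · exact ⟨a, subset_rfl, h⟩
      · exact ⟨b, h, subset_rfl⟩) (fun K => (hc K K.2).1) (fun K => (hc K K.2).1.isClosed)
      (U := U ∪ V) (by
      intro x hx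
      rw [← sInter_eq_iInter] at hx
      apply (hU.union hV).mem_nhds
      rcases hAB hx with h | h
      · exact Or.inl (hAU ⟨hx, h⟩)
      · exact Or.inr (hBV ⟨hx, h⟩))
  obtain ⟨a, ha1, ha2⟩ := hneA
  obtain ⟨b, hb1, hb2⟩ := hneB
  have := (hc K hK).2 U V hU hV hKU ⟨a, ha1 K hK, hAU ⟨ha1, ha2⟩⟩ ⟨b, hb1 K hK, hBV ⟨hb1, hb2⟩⟩
  obtain ⟨z, _, hz1, hz2⟩ := this
  exact (Set.disjoint_left.1 hUV) hz1 hz2

/-- Boundary bumping. -/
lemma bump {K : Set E} (hKc : IsCompact K) (hK : IsPreconnected K) {g : E → ℝ} (hg : Continuous g)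
    {r : ℝ} {z y : E} (hz : z ∈ K) (hzr : r ≤ g z) (hy : y ∈ K) (hyr : g y < r) :
    ∃ C ⊆ K, IsCompact C ∧ IsPreconnected C ∧ z ∈ C ∧ (∀ c ∈ C, r ≤ g c) ∧ ∃ c ∈ C, g c = r := by
  set F : Set E := K ∩ g ⁻¹' Ici r with hF
  have hFc : IsCompact F := hKc.inter_right (isClosed_Ici.preimage hg)
  have hzF : z ∈ F := ⟨hz, hzr⟩
  have : CompactSpace F := isCompact_iff_compactSpace.1 hFc
  let z' : F := ⟨z, hzF⟩
  let C : Set F := connectedComponent z'
  have hCclosed : IsClosed C := isClosed_connectedComponent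
  refine ⟨Subtype.val '' C, ?_, hCclosed.isCompact.image continuous_subtype_val,
    isPreconnected_connectedComponent.image _ continuous_subtype_val.continuousOn, ?_, ?_, ?_⟩
  · rintro _ ⟨x, _, rfl⟩; exact x.2.1
  · exact ⟨z', mem_connectedComponent, rfl⟩
  · rintro _ ⟨x, _, rfl⟩; exact x.2.2
  · by_contra hcon
    push Not at hcon
    -- find a clopen set in F containing z' and missing {g = r}
    have hC : C = ⋂ s : { s : Set F // IsClopen s ∧ z' ∈ s }, (s : Set F) :=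
      connectedComponent_eq_iInter_isClopen z'
    let G : Set F := {x | g x = r}
    have hG : IsClosed G := isClosed_eq (hg.comp continuous_subtype_val) continuous_const
    have hCG : C ⊆ Gᶜ := by
      intro x hx hxG
      exact hcon x ⟨x, hx, rfl⟩ hxG
    rw [hC] at hCG
    have : Nonempty { s : Set F // IsClopen s ∧ z' ∈ s } := ⟨⟨univ, isClopen_univ, mem_univ _⟩⟩
    obtain ⟨⟨Z, hZ, hzZ⟩, hZG⟩ := exists_subset_nhds_of_isCompact'
      (V := fun s : { s : Set F // IsClopen s ∧ z' ∈ s } => (s : Set F)) (by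
      intro a b
      exact ⟨⟨a ∩ b, a.2.1.inter b.2.1, a.2.2, b.2.2⟩, inter_subset_left, inter_subset_right⟩)
      (fun s => s.2.1.1.isCompact) (fun s => s.2.1.1) (U := Gᶜ) (by
      intro x hx
      exact hG.isOpen_compl.mem_nhds (hCG hx))
    obtain ⟨U, hU, hUZ⟩ := isOpen_induced_iff.1 hZ.2
    have hZ' : IsCompact (Subtype.val '' Z) := hZ.1.isCompact.image continuous_subtype_val
    have := hK (U ∩ g ⁻¹' Ioi r) (Subtype.val '' Z)ᶜ (hU.inter (isOpen_Ioi.preimage hg))
      hZ'.isClosed.isOpen_compl (by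
        intro x hx
        by_cases hxZ : x ∈ Subtype.val '' Z
        · left
          obtain ⟨x', hx', rfl⟩ := hxZ
          refine ⟨?_, ?_⟩
          · have : x' ∈ Subtype.val ⁻¹' U := by rw [hUZ]; exact hx'
            exact this
          · have h1 : r ≤ g x' := x'.2.2
            have h2 : g x' ≠ r := fun h => hZG hx' h
            exact lt_of_le_of_ne h1 (Ne.symm h2)
        · right; exact hxZ) ⟨z, hz, by
          have : z' ∈ Subtype.val ⁻¹' U := by rw [hUZ]; exact hzZ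
          exact this, by
          have h1 : r ≤ g z := hzr
          have h2 : g z ≠ r := fun h => hZG hzZ h
          exact lt_of_le_of_ne h1 (Ne.symm h2)⟩ ⟨y, hy, by
          rintro ⟨x', hx', rfl⟩
          have h1 : r ≤ g x' := x'.2.2
          exact absurd hyr (not_lt.2 h1)⟩
    obtain ⟨x, hxK, ⟨hxU, hxr⟩, hxZ⟩ := this
    apply hxZ
    have hxr' : r < g x := hxr
    have hxF : x ∈ F := ⟨hxK, hxr'.le⟩
    refine ⟨⟨x, hxF⟩, ?_, rfl⟩
    rw [← hUZ]
    exact hxU

/-- `M` is a minimal continuum containing `x` and `y`. -/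
def MinCont (M : Set E) (x y : E) : Prop :=
  IsCompact M ∧ IsPreconnected M ∧ x ∈ M ∧ y ∈ M ∧
    ∀ N ⊆ M, IsCompact N → IsPreconnected N → x ∈ N → y ∈ N → N = M

lemma MinCont.symm {M : Set E} {x y : E} (h : MinCont M x y) : MinCont M y x :=
  ⟨h.1, h.2.1, h.2.2.2.1, h.2.2.1, fun N h1 h2 h3 h4 h5 => h.2.2.2.2 N h1 h2 h3 h5 h4⟩

lemma exists_minCont {K : Set E} (hKc : IsCompact K) (hK : IsPreconnected K) {x y : E}
    (hx : x ∈ K) (hy : y ∈ K) : ∃ M ⊆ K, MinCont M x y := by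
  obtain ⟨M, hMK, hM⟩ := zorn_superset_nonempty
    {M : Set E | IsCompact M ∧ IsPreconnected M ∧ x ∈ M ∧ y ∈ M} (by
      intro c hc hch hne
      have h := nested hne hch (fun K hK => ⟨(hc hK).1, (hc hK).2.1⟩)
      refine ⟨⋂₀ c, ⟨h.1, h.2, fun t ht => (hc ht).2.2.1, fun t ht => (hc ht).2.2.2⟩, ?_⟩
      intro s hs
      exact sInter_subset_of_mem hs) K ⟨hKc, hK, hx, hy⟩
  refine ⟨M, hMK, hM.1.1, hM.1.2.1, hM.1.2.2.1, hM.1.2.2.2, ?_⟩
  intro N hNM h1 h2 h3 h4
  exact Subset.antisymm hNM (hM.2 ⟨h1, h2, h3, h4⟩ hNM)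

lemma split {M : Set E} {x y p : E} (hM : MinCont M x y) (hp : p ∈ M) {r : ℝ} (hr : 0 < r)
    (hrx : r ≤ dist x p) (hry : r ≤ dist y p) :
    ∃ A ⊆ M, ∃ B ⊆ M, IsCompact A ∧ IsPreconnected A ∧ IsCompact B ∧ IsPreconnected B ∧
      x ∈ A ∧ y ∈ B ∧ Disjoint A B ∧ (∃ c ∈ A, dist c p = r) ∧ ∃ c ∈ B, dist c p = r := by
  obtain ⟨hMc, hMp, hx, hy, hmin⟩ := hM
  have hg : Continuous (fun z : E => dist z p) := continuous_id.dist continuous_const
  obtain ⟨A, hAM, a1, a2, a3, a4, a5⟩ := bump hMc hMp hg hx hrx hp (by simpa using hr)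
  obtain ⟨B, hBM, b1, b2, b3, b4, b5⟩ := bump hMc hMp hg hy hry hp (by simpa using hr)
  refine ⟨A, hAM, B, hBM, a1, a2, b1, b2, a3, b3, ?_, a5, b5⟩
  by_contra hcon
  rw [Set.not_disjoint_iff] at hcon
  obtain ⟨w, hwA, hwB⟩ := hcon
  have h := hmin (A ∪ B) (union_subset hAM hBM) (a1.union b1) (a2.union w hwA hwB b2)
    (Or.inl a3) (Or.inr b3)
  rw [← h] at hp
  rcases hp with h' | h'
  · have := a4 p h'
    simp at this; linarith
  · have := b4 p h'
    simp at this; linarith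

variable [MeasurableSpace E] [BorelSpace E]

lemma min_len {M : Set E} {x y p : E} (hM : MinCont M x y) (hp : p ∈ M) :
    ENNReal.ofReal (dist x p + dist y p) ≤ μH[1] M := by
  have hx : x ∈ M := hM.2.2.1
  have hy : y ∈ M := hM.2.2.2.1
  by_cases hxp : x = p
  · subst hxp
    simp only [dist_self, zero_add]
    exact H_conn hM.2.1 hy hx
  by_cases hyp : y = p
  · subst hyp
    simp only [dist_self, add_zero]
    exact H_conn hM.2.1 hx hy
  have dx := dist_pos.2 hxp
  have dy := dist_pos.2 hyp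
  apply ENNReal.le_of_forall_pos_le_add
  intro ε hε _
  have hε' : (0:ℝ) < ε := by exact_mod_cast hε
  set r := min (ε / 2 : ℝ) (min (dist x p) (dist y p)) with hr
  have hr0 : 0 < r := by
    rw [hr]; exact lt_min (by positivity) (lt_min dx dy)
  have hrx : r ≤ dist x p := (min_le_right _ _).trans (min_le_left _ _)
  have hry : r ≤ dist y p := (min_le_right _ _).trans (min_le_right _ _)
  have hre : 2 * r ≤ ε := by have := min_le_left (ε / 2 : ℝ) (min (dist x p) (dist y p)); linarith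
  obtain ⟨A, hAM, B, hBM, a1, a2, b1, b2, hxA, hyB, hAB, ⟨c, hc, hcr⟩, ⟨c', hc', hcr'⟩⟩ :=
    split hM hp hr0 hrx hry
  have h1 : ENNReal.ofReal (dist x p - r) ≤ μH[1] A := by
    refine le_trans (ENNReal.ofReal_le_ofReal ?_) (H_conn a2 hxA hc)
    have := dist_triangle x c p
    linarith
  have h2 : ENNReal.ofReal (dist y p - r) ≤ μH[1] B := by
    refine le_trans (ENNReal.ofReal_le_ofReal ?_) (H_conn b2 hyB hc')
    have := dist_triangle y c' p
    linarith
  have h3 : μH[1] A + μH[1] B ≤ μH[1] M := by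
    rw [← measure_union hAB b1.measurableSet]
    exact measure_mono (union_subset hAM hBM)
  calc ENNReal.ofReal (dist x p + dist y p)
      ≤ ENNReal.ofReal ((dist x p - r) + (dist y p - r) + ε) :=
        ENNReal.ofReal_le_ofReal (by linarith)
    _ = ENNReal.ofReal (dist x p - r) + ENNReal.ofReal (dist y p - r) + ε := by
        rw [ENNReal.ofReal_add (by linarith) hε'.le, ENNReal.ofReal_add (by linarith) (by linarith),
          ENNReal.ofReal_coe_nnreal]
    _ ≤ μH[1] M + ε := by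
        gcongr
        exact (add_le_add h1 h2).trans h3

/-- Tripod inequality, refined form. -/
lemma tripod' {K : Set E} (hKc : IsCompact K) (hK : IsPreconnected K) {x y z : E}
    (hx : x ∈ K) (hy : y ∈ K) (hz : z ∈ K) :
    ∃ M ⊆ K, MinCont M x y ∧ ∃ p ∈ M, μH[1] M + ENNReal.ofReal (dist z p) ≤ μH[1] K := by
  obtain ⟨M, hMK, hM⟩ := exists_minCont hKc hK hx hy
  obtain ⟨p, hp, hpd⟩ := hM.1.exists_infDist_eq_dist ⟨x, hM.2.2.1⟩ z
  refine ⟨M, hMK, hM, p, hp, ?_⟩
  rw [← hpd]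
  have h := H_diff hK hx hM.2.2.1 hz
  have h2 : μH[1] K = μH[1] M + μH[1] (K \ M) := by
    rw [← measure_inter_add_sdiff K hM.1.measurableSet, inter_eq_self_of_subset_right hMK]
  rw [h2]
  gcongr

lemma tripod {K : Set E} (hKc : IsCompact K) (hK : IsPreconnected K) {x y z : E}
    (hx : x ∈ K) (hy : y ∈ K) (hz : z ∈ K) :
    ∃ p ∈ K, ENNReal.ofReal (dist x p + dist y p + dist z p) ≤ μH[1] K := by
  obtain ⟨M, hMK, hM, p, hp, h⟩ := tripod' hKc hK hx hy hz
  refine ⟨p, hMK hp, ?_⟩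
  rw [ENNReal.ofReal_add (by positivity) (by positivity)]
  refine le_trans ?_ h
  gcongr
  exact min_len hM hp

end Pool.Agent.H270R2.St
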