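import Mathlib
import Pool.Agent.H270R2.St.Continuum

set_option autoImplicit false

open scoped MeasureTheory ENNReal InnerProductSpace
open MeasureTheory Set

set_option linter.unusedSectionVars false
set_option linter.unusedVariables false

namespace Pool.Agent.H270R2.St

variable {E : Type*} [NormedAddCommGroup E] [InnerProductSpace ℝ E] [MeasurableSpace E]
  [BorelSpace E]

lemma inner_le_dist {u : E} (hu : ‖u‖ = 1) (x p : E) : ⟪u, x - p⟫_ℝ ≤ dist x p := by
  have := real_inner_le_norm u (x - p)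
  rw [hu, one_mul] at this
  rwa [dist_eq_norm]

/-- Calibration inequality for three points. -/
lemma tripod_cal {K : Set E} (hKc : IsCompact K) (hK : IsPreconnected K) {x y z u v w : E}
    (hx : x ∈ K) (hy : y ∈ K) (hz : z ∈ K) (hu : ‖u‖ = 1) (hv : ‖v‖ = 1) (hw : ‖w‖ = 1)
    (huvw : u + v + w = 0) :
    ENNReal.ofReal (⟪u, x⟫_ℝ + ⟪v, y⟫_ℝ + ⟪w, z⟫_ℝ) ≤ μH[1] K := by
  obtain ⟨p, -, hp⟩ := tripod hKc hK hx hy hz
  refine le_trans (ENNReal.ofReal_le_ofReal ?_) hp
  have h1 := inner_le_dist hu x p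
  have h2 := inner_le_dist hv y p
  have h3 := inner_le_dist hw z p
  rw [inner_sub_right] at h1 h2 h3
  have h4 : ⟪u, p⟫_ℝ + ⟪v, p⟫_ℝ + ⟪w, p⟫_ℝ = 0 := by
    rw [← inner_add_left, ← inner_add_left, huvw, inner_zero_left]
  linarith

lemma eq_smul_of_inner {u : E} (hu : ‖u‖ = 1) {x p : E} (h : dist x p ≤ ⟪u, x - p⟫_ℝ) :
    x - p = dist x p • u := by
  have h1 := inner_le_dist hu x p
  have h2 : ⟪u, x - p⟫_ℝ = ‖u‖ * ‖x - p‖ := by
    rw [hu, one_mul, ← dist_eq_norm]; linarith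
  rw [inner_eq_norm_mul_iff_real] at h2
  rw [hu, one_smul] at h2
  rw [dist_eq_norm]
  exact h2.symm

/-- Stewart's identity. -/
lemma stewart (x p s : E) (a : ℝ) :
    dist s (x + a • (p - x)) ^ 2
      = (1 - a) * dist s x ^ 2 + a * dist s p ^ 2 - a * (1 - a) * dist x p ^ 2 := by
  have e1 : s - (x + a • (p - x)) = (1 - a) • (s - x) + a • (s - p) := by module
  have e2 : x - p = (s - p) - (s - x) := by abel
  rw [dist_eq_norm, dist_eq_norm, dist_eq_norm, dist_eq_norm, e1, e2]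
  generalize s - x = A
  generalize s - p = B
  rw [norm_add_sq_real, norm_sub_sq_real, norm_smul, norm_smul, mul_pow, mul_pow,
    Real.norm_eq_abs, Real.norm_eq_abs, sq_abs, sq_abs, inner_smul_left, inner_smul_right,
    real_inner_comm A B]
  simp only [conj_trivial]
  ring

/-- In the equality case of `min_len` the segment is contained in `M`. -/
lemma seg_sub {M : Set E} {x y p : E} (hM : MinCont M x y) (hp : p ∈ M)
    (hH : μH[1] M ≤ ENNReal.ofReal (dist x p + dist y p)) : segment ℝ x p ⊆ M := by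
  intro t ht
  rw [segment_eq_image'] at ht
  obtain ⟨a, ⟨ha0, ha1⟩, rfl⟩ := ht
  rcases eq_or_lt_of_le ha1 with rfl | ha1
  · simpa using hp
  have hx : x ∈ M := hM.2.2.1
  by_cases hxp : x = p
  · subst hxp; simpa using hx
  have dx := dist_pos.2 hxp
  set D := dist x p with hD
  rw [← hM.1.isClosed.closure_eq, Metric.mem_closure_iff]
  intro ε hε
  -- choose r
  obtain ⟨r, hr0, hrD, hry, hrε⟩ : ∃ r : ℝ, 0 < r ∧ r < (1 - a) * D ∧ (y ≠ p → r ≤ dist y p) ∧
      8 * r * D + 16 * r ^ 2 < ε ^ 2 := by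
    have h1 : ∃ r1 : ℝ, 0 < r1 ∧ ∀ r, r ≤ r1 → (y ≠ p → r ≤ dist y p) := by
      by_cases hyp : y = p
      · exact ⟨1, one_pos, fun r _ h => absurd hyp h⟩
      · exact ⟨dist y p, dist_pos.2 hyp, fun r h _ => h⟩
    obtain ⟨r1, hr1, hr1'⟩ := h1
    have hq : 0 < ε ^ 2 / (8 * D + 16) / 2 := by positivity
    set r := min (min 1 (ε ^ 2 / (8 * D + 16) / 2)) (min r1 ((1 - a) * D / 2)) with hr
    have b0 : 0 < (1 - a) * D := mul_pos (by linarith) dx
    have b1 : 0 < r := by
      rw [hr]; exact lt_min (lt_min one_pos hq) (lt_min hr1 (by linarith))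
    have b2 : r ≤ 1 := (min_le_left _ _).trans (min_le_left _ _)
    have b3 : r ≤ ε ^ 2 / (8 * D + 16) / 2 := (min_le_left _ _).trans (min_le_right _ _)
    have b4 : r ≤ r1 := (min_le_right _ _).trans (min_le_left _ _)
    have b5 : r ≤ (1 - a) * D / 2 := (min_le_right _ _).trans (min_le_right _ _)
    refine ⟨r, b1, by linarith, hr1' r b4, ?_⟩
    have b6 : r * (8 * D + 16) ≤ ε ^ 2 / 2 := by
      have := mul_le_mul_of_nonneg_right b3 (by positivity : 0 ≤ 8 * D + 16)
      have e : ε ^ 2 / (8 * D + 16) / 2 * (8 * D + 16) = ε ^ 2 / 2 := by field_simp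
      linarith
    have : 0 < ε ^ 2 := by positivity
    nlinarith
  have hrD' : r ≤ D := by nlinarith
  -- the piece near x
  obtain ⟨C, c, hCM, hCc, hCp, hxC, hcC, hcp, hCH⟩ : ∃ (C : Set E) (c : E), C ⊆ M ∧ IsCompact C ∧
      IsPreconnected C ∧ x ∈ C ∧ c ∈ C ∧ dist c p ≤ r ∧ μH[1] C ≤ ENNReal.ofReal (D + r) := by
    by_cases hyp : y = p
    · refine ⟨M, p, subset_rfl, hM.1, hM.2.1, hx, hp, by simpa using hr0.le, ?_⟩
      rw [hyp, dist_self, add_zero] at hH
      exact hH.trans (ENNReal.ofReal_le_ofReal (by linarith))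
    · obtain ⟨A, hAM, B, hBM, a1, a2, b1, b2, hxA, hyB, hAB, ⟨c, hc, hcr⟩, ⟨c', hc', hcr'⟩⟩ :=
        split hM hp hr0 hrD' (hry hyp)
      refine ⟨A, c, hAM, a1, a2, hxA, hc, hcr.le, ?_⟩
      have h2 : ENNReal.ofReal (dist y p - r) ≤ μH[1] B := by
        refine le_trans (ENNReal.ofReal_le_ofReal ?_) (H_conn b2 hyB hc')
        have := dist_triangle y c' p
        linarith
      have h3 : μH[1] A + μH[1] B ≤ μH[1] M := by
        rw [← measure_union hAB b1.measurableSet]
        exact measure_mono (union_subset hAM hBM)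
      have h4 : μH[1] A + ENNReal.ofReal (dist y p - r) ≤
          ENNReal.ofReal (D + r) + ENNReal.ofReal (dist y p - r) := by
        rw [← ENNReal.ofReal_add (by positivity) (by linarith [hry hyp])]
        have e : D + r + (dist y p - r) = D + dist y p := by ring
        rw [e]
        exact le_trans (by gcongr) (h3.trans hH)
      exact (ENNReal.add_le_add_iff_right ENNReal.ofReal_ne_top).1 h4
  -- a point of C at distance aD from x
  have hxc : D - r ≤ dist x c := by
    have := dist_triangle x c p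
    rw [hD]; linarith
  obtain ⟨s, hsC, hs⟩ : ∃ s ∈ C, dist s x = a * D := by
    have hg : ContinuousOn (fun s => dist s x) C := (continuous_id.dist continuous_const).continuousOn
    have := hCp.intermediate_value hxC hcC hg (show a * D ∈ Icc (dist x x) (dist c x) by
      rw [dist_self, dist_comm c x]
      exact ⟨by positivity, by nlinarith⟩)
    exact this
  obtain ⟨p', hp', hp'H⟩ := tripod hCc hCp hxC hcC hsC
  have h5 : dist x p' + dist c p' + dist s p' ≤ D + r := by
    have := hp'H.trans hCH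
    rwa [ENNReal.ofReal_le_ofReal_iff (by positivity)] at this
  have t1 := dist_triangle_right x c p'
  have t2 := dist_triangle_right s c p'
  have t3 := dist_triangle_right s x p'
  have t4 := dist_triangle s c p
  have t5 : dist s p ≤ (1 - a) * D + 4 * r := by
    have := dist_triangle x s c
    rw [dist_comm s x] at t3
    have h6 : dist x s + dist s c ≤ D + 3 * r := by
      have : dist s p' ≤ 2 * r := by linarith
      linarith
    rw [dist_comm s x] at hs
    nlinarith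
  refine ⟨s, hCM hsC, ?_⟩
  rw [dist_comm]
  have h7 : dist s (x + a • (p - x)) ^ 2 < ε ^ 2 := by
    rw [stewart, hs, ← hD]
    have hsp := dist_nonneg (x := s) (y := p)
    have h8 : dist s p ^ 2 ≤ ((1 - a) * D + 4 * r) ^ 2 := by
      apply pow_le_pow_left₀ hsp t5
    have h9 : a * dist s p ^ 2 ≤ a * ((1 - a) * D + 4 * r) ^ 2 := by gcongr
    have h10 : (1 - a) * (a * D) ^ 2 + a * ((1 - a) * D + 4 * r) ^ 2 - a * (1 - a) * D ^ 2
        = a * ((1 - a) * (8 * r * D) + 16 * r ^ 2) := by ring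
    have h11 : a * ((1 - a) * (8 * r * D) + 16 * r ^ 2) ≤ 8 * r * D + 16 * r ^ 2 := by
      have e1 : 0 ≤ 8 * r * D := by positivity
      have e2 : 0 ≤ 16 * r ^ 2 := by positivity
      have e3 : (1 - a) * (8 * r * D) ≤ 8 * r * D := by nlinarith
      nlinarith
    linarith
  exact lt_of_pow_lt_pow_left₀ 2 hε.le h7

/-- Equality case of the calibration inequality. -/
lemma rigid {K : Set E} (hKc : IsCompact K) (hK : IsPreconnected K) {x y z u v w : E}
    (hx : x ∈ K) (hy : y ∈ K) (hz : z ∈ K) (hu : ‖u‖ = 1) (hv : ‖v‖ = 1) (hw : ‖w‖ = 1)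
    (huvw : u + v + w = 0)
    (hH : μH[1] K ≤ ENNReal.ofReal (⟪u, x⟫_ℝ + ⟪v, y⟫_ℝ + ⟪w, z⟫_ℝ)) :
    ∃ p, x - p = dist x p • u ∧ y - p = dist y p • v ∧ z - p = dist z p • w ∧
      K = segment ℝ x p ∪ segment ℝ y p ∪ segment ℝ z p := by
  have main : ∀ (x y z u v w : E), x ∈ K → y ∈ K → z ∈ K → ‖u‖ = 1 → ‖v‖ = 1 → ‖w‖ = 1 →
      u + v + w = 0 → μH[1] K ≤ ENNReal.ofReal (⟪u, x⟫_ℝ + ⟪v, y⟫_ℝ + ⟪w, z⟫_ℝ) →
      ∃ p, x - p = dist x p • u ∧ y - p = dist y p • v ∧ z - p = dist z p • w ∧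
        segment ℝ x p ⊆ K ∧ segment ℝ y p ⊆ K := by
    intro x y z u v w hx hy hz hu hv hw huvw hH
    obtain ⟨M, hMK, hM, p, hp, h⟩ := tripod' hKc hK hx hy hz
    have h1 := inner_le_dist hu x p
    have h2 := inner_le_dist hv y p
    have h3 := inner_le_dist hw z p
    have h4 : ⟪u, p⟫_ℝ + ⟪v, p⟫_ℝ + ⟪w, p⟫_ℝ = 0 := by
      rw [← inner_add_left, ← inner_add_left, huvw, inner_zero_left]
    have h5 := min_len hM hp
    have h6 : ENNReal.ofReal (dist x p + dist y p + dist z p) ≤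
        ENNReal.ofReal (⟪u, x⟫_ℝ + ⟪v, y⟫_ℝ + ⟪w, z⟫_ℝ) := by
      rw [ENNReal.ofReal_add (by positivity) (by positivity)]
      refine le_trans (by gcongr) (h.trans hH)
    have e : ⟪u, x⟫_ℝ + ⟪v, y⟫_ℝ + ⟪w, z⟫_ℝ = ⟪u, x - p⟫_ℝ + ⟪v, y - p⟫_ℝ + ⟪w, z - p⟫_ℝ := by
      rw [inner_sub_right, inner_sub_right, inner_sub_right]; linarith
    have h7 : dist x p + dist y p + dist z p ≤
        ⟪u, x - p⟫_ℝ + ⟪v, y - p⟫_ℝ + ⟪w, z - p⟫_ℝ := by
      rw [e] at h6
      by_cases hpos : 0 < ⟪u, x - p⟫_ℝ + ⟪v, y - p⟫_ℝ + ⟪w, z - p⟫_ℝ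
      · rwa [ENNReal.ofReal_le_ofReal_iff hpos.le] at h6
      · have h8 : ENNReal.ofReal (⟪u, x - p⟫_ℝ + ⟪v, y - p⟫_ℝ + ⟪w, z - p⟫_ℝ) = 0 :=
          ENNReal.ofReal_of_nonpos (not_lt.1 hpos)
        rw [h8, nonpos_iff_eq_zero, ENNReal.ofReal_eq_zero] at h6
        have d1 := dist_nonneg (x := x) (y := p)
        have d2 := dist_nonneg (x := y) (y := p)
        have d3 := dist_nonneg (x := z) (y := p)
        have z1 : dist x p = 0 := by linarith
        have z2 : dist y p = 0 := by linarith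
        have z3 : dist z p = 0 := by linarith
        rw [dist_eq_zero] at z1 z2 z3
        subst z1; rw [z2, z3]; simp
    have hux : dist x p ≤ ⟪u, x - p⟫_ℝ := by linarith
    have hvy : dist y p ≤ ⟪v, y - p⟫_ℝ := by linarith
    have hwz : dist z p ≤ ⟪w, z - p⟫_ℝ := by linarith
    -- H(M) ≤ dist x p + dist y p
    have hMH : μH[1] M ≤ ENNReal.ofReal (dist x p + dist y p) := by
      have h8 : μH[1] M + ENNReal.ofReal (dist z p) ≤
          ENNReal.ofReal (dist x p + dist y p) + ENNReal.ofReal (dist z p) := by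
        rw [← ENNReal.ofReal_add (by positivity) (by positivity)]
        refine h.trans (hH.trans (ENNReal.ofReal_le_ofReal ?_))
        rw [e]; linarith
      exact (ENNReal.add_le_add_iff_right ENNReal.ofReal_ne_top).1 h8
    refine ⟨p, eq_smul_of_inner hu hux, eq_smul_of_inner hv hvy, eq_smul_of_inner hw hwz,
      (seg_sub hM hp hMH).trans hMK, (seg_sub hM.symm hp (by rwa [add_comm] at hMH)).trans hMK⟩
  obtain ⟨p, p1, p2, p3, p4, p5⟩ := main x y z u v w hx hy hz hu hv hw huvw hH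
  obtain ⟨p', q2, q3, q1, q5, q6⟩ := main y z x v w u hy hz hx hv hw hu
    (by rw [← huvw]; abel) (by rwa [show ⟪v, y⟫_ℝ + ⟪w, z⟫_ℝ + ⟪u, x⟫_ℝ
      = ⟪u, x⟫_ℝ + ⟪v, y⟫_ℝ + ⟪w, z⟫_ℝ by ring])
  have hpp : p = p' := by
    have e1 : p' - p = (dist x p - dist x p') • u := by
      rw [sub_smul, ← p1, ← q1]; abel
    have e2 : p' - p = (dist y p - dist y p') • v := by
      rw [sub_smul, ← p2, ← q2]; abel
    have huv : ⟪u, v⟫_ℝ = -1/2 := by
      have : ‖u + v‖ ^ 2 = 1 := by
        have : u + v = -w := by rw [eq_neg_iff_add_eq_zero]; exact huvw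
        rw [this, norm_neg, hw]; norm_num
      rw [norm_add_sq_real, hu, hv] at this
      linarith
    have e3 : ⟪p' - p, v⟫_ℝ = (dist x p - dist x p') * (-1/2) := by
      rw [e1, inner_smul_left, huv]; simp
    have e4 : ⟪p' - p, v⟫_ℝ = (dist y p - dist y p') := by
      rw [e2, inner_smul_left, real_inner_self_eq_norm_sq, hv]; simp
    have e5 : ⟪p' - p, u⟫_ℝ = (dist y p - dist y p') * (-1/2) := by
      rw [e2, inner_smul_left, real_inner_comm, huv]; simp
    have e6 : ⟪p' - p, u⟫_ℝ = (dist x p - dist x p') := by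
      rw [e1, inner_smul_left, real_inner_self_eq_norm_sq, hu]; simp
    have e7 : dist x p - dist x p' = 0 := by linarith
    rw [e7, zero_smul] at e1
    exact (sub_eq_zero.1 e1).symm
  subst hpp
  refine ⟨p, p1, p2, p3, ?_⟩
  set Y := segment ℝ x p ∪ segment ℝ y p ∪ segment ℝ z p with hY
  have hYK : Y ⊆ K := union_subset (union_subset p4 p5) q6
  have c1 : ∀ a b : E, IsCompact (segment ℝ a b) := by
    intro a b
    rw [segment_eq_image']
    exact isCompact_Icc.image (by fun_prop)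
  have hYc : IsCompact Y := ((c1 x p).union (c1 y p)).union (c1 z p)
  have hYp : IsPreconnected Y := by
    refine IsPreconnected.union p ?_ (right_mem_segment ℝ z p)
      (IsPreconnected.union p (right_mem_segment ℝ x p) (right_mem_segment ℝ y p)
        (convex_segment x p).isPreconnected (convex_segment y p).isPreconnected)
      (convex_segment z p).isPreconnected
    exact Or.inl (right_mem_segment ℝ x p)
  have hYH : μH[1] K ≤ μH[1] Y := hH.trans (tripod_cal hYc hYp
    (Or.inl (Or.inl (left_mem_segment ℝ x p))) (Or.inl (Or.inr (left_mem_segment ℝ y p)))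
    (Or.inr (left_mem_segment ℝ z p)) hu hv hw huvw)
  apply Subset.antisymm _ hYK
  intro k hk
  by_contra hkY
  have h1 : 0 < Metric.infDist k Y := by
    rw [← hYc.isClosed.notMem_iff_infDist_pos ⟨x, Or.inl (Or.inl (left_mem_segment ℝ x p))⟩]
    exact hkY
  have hxY : x ∈ Y := Or.inl (Or.inl (left_mem_segment ℝ x p))
  have h2 := H_diff hK hx hxY hk
  have h3 : μH[1] K = μH[1] Y + μH[1] (K \ Y) := by
    rw [← measure_inter_add_sdiff K hYc.measurableSet, inter_eq_self_of_subset_right hYK]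
  have h4 : μH[1] K ≠ ⊤ := ne_top_of_le_ne_top ENNReal.ofReal_ne_top hH
  have h5 : μH[1] (K \ Y) = 0 := by
    have h6 : μH[1] Y + μH[1] (K \ Y) ≤ μH[1] Y + 0 := by rw [← h3, add_zero]; exact hYH
    have h7 : μH[1] Y ≠ ⊤ := ne_top_of_le_ne_top h4 (measure_mono hYK)
    exact nonpos_iff_eq_zero.1 ((ENNReal.add_le_add_iff_left h7).1 h6)
  rw [h5, nonpos_iff_eq_zero, ENNReal.ofReal_eq_zero] at h2
  linarith

end Pool.Agent.H270R2.St
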