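import Mathlib
import Pool.Agent.H270R2.St.Rigid

set_option autoImplicit false

open scoped MeasureTheory ENNReal InnerProductSpace
open MeasureTheory Set

set_option linter.unusedSectionVars false
set_option linter.unusedVariables false

namespace Pool.Agent.H270R2.St

variable {E : Type*} [NormedAddCommGroup E] [InnerProductSpace ℝ E]

/-- Radial shrinking. -/
noncomputable def shr (R : ℝ) (A : E) : E := (1 - R / max ‖A‖ R) • A

lemma shr_of_le {R : ℝ} (hR : 0 < R) {A : E} (h : ‖A‖ ≤ R) : shr R A = 0 := by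
  unfold shr
  rw [max_eq_right h, div_self hR.ne']
  simp

lemma shr_of_ge {R : ℝ} {A : E} (h : R ≤ ‖A‖) : shr R A = A - (R / ‖A‖) • A := by
  unfold shr
  rw [max_eq_left h, sub_smul, one_smul]

lemma norm_shr {R : ℝ} (hR : 0 < R) {A : E} (h : R ≤ ‖A‖) : ‖shr R A‖ = ‖A‖ - R := by
  unfold shr
  have hA : 0 < ‖A‖ := lt_of_lt_of_le hR h
  rw [max_eq_left h, norm_smul, Real.norm_eq_abs, abs_of_nonneg]
  · field_simp
  · rw [sub_nonneg, div_le_one hA]; exact h

lemma shr_dist {R : ℝ} (hR : 0 < R) (A : E) : ‖shr R A - A‖ ≤ R := by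
  rcases le_total ‖A‖ R with h | h
  · rw [shr_of_le hR h]; simpa using h
  · have hA : 0 < ‖A‖ := lt_of_lt_of_le hR h
    rw [shr_of_ge h]
    have : A - (R / ‖A‖) • A - A = - ((R / ‖A‖) • A) := by abel
    rw [this, norm_neg, norm_smul, Real.norm_eq_abs, abs_of_nonneg (by positivity)]
    rw [div_mul_cancel₀ _ hA.ne']

lemma shr_lip {R : ℝ} (hR : 0 < R) (A B : E) : ‖shr R A - shr R B‖ ≤ ‖A - B‖ := by
  have one : ∀ A B : E, ‖A‖ ≤ R → R ≤ ‖B‖ → ‖shr R A - shr R B‖ ≤ ‖A - B‖ := by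
    intro A B hA hB
    rw [shr_of_le hR hA, zero_sub, norm_neg, norm_shr hR hB]
    have := norm_sub_norm_le B A
    rw [norm_sub_rev]
    linarith
  rcases le_total ‖A‖ R with hA | hA
  · rcases le_total ‖B‖ R with hB | hB
    · rw [shr_of_le hR hA, shr_of_le hR hB]; simp
    · exact one A B hA hB
  · rcases le_total ‖B‖ R with hB | hB
    · rw [norm_sub_rev, norm_sub_rev A B]; exact one B A hB hA
    · have hA0 : 0 < ‖A‖ := lt_of_lt_of_le hR hA
      have hB0 : 0 < ‖B‖ := lt_of_lt_of_le hR hB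
      apply le_of_sq_le_sq' _ (norm_nonneg _)
      unfold shr
      rw [max_eq_left hA, max_eq_left hB]
      set s := 1 - R / ‖A‖ with hs
      set t := 1 - R / ‖B‖ with ht
      have hsA : s * ‖A‖ = ‖A‖ - R := by rw [hs]; field_simp
      have htB : t * ‖B‖ = ‖B‖ - R := by rw [ht]; field_simp
      have hs0 : 0 ≤ s := by rw [hs, sub_nonneg, div_le_one hA0]; exact hA
      have ht0 : 0 ≤ t := by rw [ht, sub_nonneg, div_le_one hB0]; exact hB
      have hs1 : s ≤ 1 := by
        rw [hs]; have : 0 ≤ R / ‖A‖ := by positivity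
        linarith
      have ht1 : t ≤ 1 := by
        rw [ht]; have : 0 ≤ R / ‖B‖ := by positivity
        linarith
      rw [norm_sub_sq_real, norm_sub_sq_real, norm_smul, norm_smul, inner_smul_left,
        inner_smul_right]
      simp only [conj_trivial, Real.norm_eq_abs, abs_of_nonneg hs0, abs_of_nonneg ht0]
      rw [hsA, htB]
      have hI := real_inner_le_norm A B
      -- (1 - s t) * inner ≤ (1 - s t) * ‖A‖‖B‖
      have h1 : 0 ≤ 1 - s * t := by nlinarith
      have h2 : (1 - s * t) * ⟪A, B⟫_ℝ ≤ (1 - s * t) * (‖A‖ * ‖B‖) := by gcongr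
      have h3 : s * t * (‖A‖ * ‖B‖) = (‖A‖ - R) * (‖B‖ - R) := by
        rw [← hsA, ← htB]; ring
      nlinarith
where
  le_of_sq_le_sq' {a b : ℝ} (h : a ^ 2 ≤ b ^ 2) (hb : 0 ≤ b) : a ≤ b := by
    exact le_of_sq_le_sq'' h hb
  le_of_sq_le_sq'' {a b : ℝ} (h : a ^ 2 ≤ b ^ 2) (hb : 0 ≤ b) : a ≤ b := by
    nlinarith [sq_nonneg (a - b), sq_nonneg (a + b)]

/-- The map collapsing the closed ball of radius `R` around `b` to `b`. -/
noncomputable def coll (b : E) (R : ℝ) (x : E) : E := b + shr R (x - b)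

lemma coll_lip (b : E) {R : ℝ} (hR : 0 < R) : LipschitzWith 1 (coll b R) := by
  apply LipschitzWith.of_dist_le_mul
  intro x y
  rw [dist_eq_norm, dist_eq_norm, NNReal.coe_one, one_mul]
  unfold coll
  have h := shr_lip hR (x - b) (y - b)
  have e1 : b + shr R (x - b) - (b + shr R (y - b)) = shr R (x - b) - shr R (y - b) := by abel
  have e2 : x - b - (y - b) = x - y := by abel
  rw [e1]; rwa [e2] at h

lemma coll_in (b : E) {R : ℝ} (hR : 0 < R) {x : E} (h : dist x b ≤ R) : coll b R x = b := by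
  unfold coll
  rw [dist_eq_norm] at h
  rw [shr_of_le hR h, add_zero]

lemma coll_dist (b : E) {R : ℝ} (hR : 0 < R) (x : E) : ‖coll b R x - x‖ ≤ R := by
  have h := shr_dist hR (x - b)
  unfold coll
  have : b + shr R (x - b) - x = shr R (x - b) - (x - b) := by abel
  rwa [this]

lemma coll_out (b : E) {R : ℝ} {x : E} (h : R ≤ dist x b) :
    coll b R x = x - (R / dist x b) • (x - b) := by
  unfold coll
  rw [dist_eq_norm] at h ⊢
  rw [shr_of_ge h]
  abel

end Pool.Agent.H270R2.St
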