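import Mathlib
import Pool.Agent.H270R2.St.Collapse

set_option autoImplicit false

open scoped MeasureTheory ENNReal InnerProductSpace Topology
open MeasureTheory Set Filter

set_option linter.unusedSectionVars false
set_option linter.unusedVariables false

namespace Pool.Agent.H270R2.St

/-- The scale ratio. -/
noncomputable def lam : ℝ := 1 / 1000

lemma lam_pos : 0 < lam := by unfold lam; norm_num
lemma lam_lt : lam < 1 := by unfold lam; norm_num
lemma lam_pow_pos (n : ℕ) : 0 < lam ^ n := pow_pos lam_pos n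

/-- Total length. -/
noncomputable def Ltot : ℝ := (1 + lam) / (1 - lam)

noncomputable def ell (m : ℕ) : ℝ := Ltot - 2 * lam ^ (m + 1) / (1 - lam)

lemma ell_zero : ell 0 = 1 := by
  unfold ell Ltot lam; norm_num

lemma ell_succ (m : ℕ) : ell (m + 1) = ell m + 2 * lam ^ (m + 1) := by
  unfold ell
  have : (1:ℝ) - lam ≠ 0 := by unfold lam; norm_num
  rw [pow_succ lam (m + 1)]
  field_simp
  ring

/-- Configuration data: unit vectors `w k` with consecutive angles 60 degrees. -/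
structure Cfg (E : Type*) [NormedAddCommGroup E] [InnerProductSpace ℝ E] where
  w : ℕ → E
  hw : ∀ k, ‖w k‖ = 1
  hww : ∀ k, ⟪w k, w (k + 1)⟫_ℝ = 1 / 2
  g : E
  c : ℝ
  hc : 0 < c
  hg : ∀ k, ⟪g, w k⟫_ℝ = c

variable {E : Type*} [NormedAddCommGroup E] [InnerProductSpace ℝ E]

namespace Cfg

variable (W : Cfg E)

/-- Spine points. -/
noncomputable def p : ℕ → E
  | 0 => 0
  | k + 1 => p k + lam ^ k • W.w k

noncomputable def v (k : ℕ) : E := W.w k - W.w (k + 1)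

/-- Leaves. -/
noncomputable def a (k : ℕ) : E := W.p (k + 1) + lam ^ (k + 1) • W.v k

lemma p_succ (k : ℕ) : W.p (k + 1) = W.p k + lam ^ k • W.w k := rfl

lemma ww_self (k : ℕ) : ⟪W.w k, W.w k⟫_ℝ = 1 := by
  rw [real_inner_self_eq_norm_sq, W.hw]; norm_num

lemma hv (k : ℕ) : ‖W.v k‖ = 1 := by
  have : ‖W.v k‖ ^ 2 = 1 := by
    unfold v
    rw [norm_sub_sq_real, W.hw, W.hw, W.hww]; norm_num
  have h0 := norm_nonneg (W.v k)
  nlinarith

lemma wv (k : ℕ) : ⟪W.w k, W.v k⟫_ℝ = 1 / 2 := by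
  unfold v
  rw [inner_sub_right, W.ww_self, W.hww]; norm_num

lemma vw (k : ℕ) : ⟪W.v k, W.w (k + 1)⟫_ℝ = -1 / 2 := by
  unfold v
  rw [inner_sub_left, W.ww_self, W.hww]; norm_num

lemma vv (k : ℕ) : ⟪W.v k, W.v k⟫_ℝ = 1 := by
  rw [real_inner_self_eq_norm_sq, W.hv]; norm_num

lemma gv (k : ℕ) : ⟪W.g, W.v k⟫_ℝ = 0 := by
  unfold v
  rw [inner_sub_right, W.hg, W.hg]; ring

lemma sum_zero (k : ℕ) : - W.w k + W.v k + W.w (k + 1) = 0 := by
  unfold v; abel

lemma dist_p_succ (k : ℕ) : dist (W.p k) (W.p (k + 1)) = lam ^ k := by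
  rw [p_succ, dist_eq_norm]
  have : W.p k - (W.p k + lam ^ k • W.w k) = -(lam ^ k • W.w k) := by abel
  rw [this, norm_neg, norm_smul, W.hw, mul_one, Real.norm_eq_abs, abs_of_pos (lam_pow_pos k)]

lemma dist_a (k : ℕ) : dist (W.a k) (W.p (k + 1)) = lam ^ (k + 1) := by
  unfold a
  rw [dist_eq_norm]
  have : W.p (k + 1) + lam ^ (k + 1) • W.v k - W.p (k + 1) = lam ^ (k + 1) • W.v k := by abel
  rw [this, norm_smul, W.hv, mul_one, Real.norm_eq_abs, abs_of_pos (lam_pow_pos _)]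

lemma a_sub (k : ℕ) : W.a k - W.p (k + 2) = lam ^ (k + 1) • (W.v k - W.w (k + 1)) := by
  unfold a
  rw [p_succ W (k + 1)]
  module

lemma dist_a_succ (k : ℕ) : dist (W.a k) (W.p (k + 2)) = Real.sqrt 3 * lam ^ (k + 1) := by
  rw [dist_eq_norm, a_sub, norm_smul, Real.norm_eq_abs, abs_of_pos (lam_pow_pos _), mul_comm]
  congr 1
  have : ‖W.v k - W.w (k + 1)‖ ^ 2 = 3 := by
    rw [norm_sub_sq_real, W.hv, W.hw, W.vw]; norm_num
  rw [← this, Real.sqrt_sq (norm_nonneg _)]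

lemma inner_a_sub (k : ℕ) : ⟪W.v k, W.a k - W.p (k + 2)⟫_ℝ = 3 / 2 * lam ^ (k + 1) := by
  rw [a_sub, inner_smul_right, inner_sub_right, W.vv, W.vw]; ring

lemma inner_va (k : ℕ) : ⟪W.v k, W.a k⟫_ℝ = ⟪W.v k, W.p (k + 1)⟫_ℝ + lam ^ (k + 1) := by
  unfold a
  rw [inner_add_right, inner_smul_right, W.vv, mul_one]

lemma inner_wp (k : ℕ) : ⟪W.w k, W.p (k + 1)⟫_ℝ = ⟪W.w k, W.p k⟫_ℝ + lam ^ k := by
  rw [p_succ, inner_add_right, inner_smul_right, W.ww_self, mul_one]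

lemma cauchy_p : CauchySeq W.p := by
  apply cauchySeq_of_le_geometric lam 1 lam_lt
  intro n
  rw [dist_p_succ, one_mul]

variable [CompleteSpace E]

/-- The limit point. -/
noncomputable def pinf : E := (cauchySeq_tendsto_of_complete W.cauchy_p).choose

lemma tendsto_p : Tendsto W.p atTop (𝓝 W.pinf) :=
  (cauchySeq_tendsto_of_complete W.cauchy_p).choose_spec

lemma dist_p_inf (n : ℕ) : dist (W.p n) W.pinf ≤ 2 * lam ^ n := by
  have h := dist_le_of_le_geometric_of_tendsto lam 1 lam_lt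
    (fun n => by rw [dist_p_succ, one_mul]) W.tendsto_p n
  refine h.trans ?_
  rw [one_mul, div_le_iff₀ (by linarith [lam_lt])]
  have h1 := lam_pow_pos n
  have h2 : lam ≤ 1 / 2 := by unfold lam; norm_num
  nlinarith

lemma dist_p_inf_lt (n : ℕ) : dist (W.p n) W.pinf < 2 * lam ^ n := by
  have h := dist_le_of_le_geometric_of_tendsto lam 1 lam_lt
    (fun n => by rw [dist_p_succ, one_mul]) W.tendsto_p n
  refine lt_of_le_of_lt h ?_
  rw [one_mul, div_lt_iff₀ (by linarith [lam_lt])]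
  have h1 := lam_pow_pos n
  have h2 : lam < 1 / 2 := by unfold lam; norm_num
  nlinarith

/-- The height function. -/
lemma gp (k : ℕ) : ⟪W.g, W.p (k + 1)⟫_ℝ = ⟪W.g, W.p k⟫_ℝ + lam ^ k * W.c := by
  rw [p_succ, inner_add_right, inner_smul_right, W.hg]

lemma gp_strictMono : StrictMono (fun k => ⟪W.g, W.p k⟫_ℝ) := by
  apply strictMono_nat_of_lt_succ
  intro n
  rw [gp]
  have := mul_pos (lam_pow_pos n) W.hc
  linarith

lemma ga (k : ℕ) : ⟪W.g, W.a k⟫_ℝ = ⟪W.g, W.p (k + 1)⟫_ℝ := by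
  unfold a
  rw [inner_add_right, inner_smul_right, gv]; ring

lemma gp_le_inf (k : ℕ) : ⟪W.g, W.p k⟫_ℝ < ⟪W.g, W.pinf⟫_ℝ := by
  have h1 : Tendsto (fun k => ⟪W.g, W.p k⟫_ℝ) atTop (𝓝 ⟪W.g, W.pinf⟫_ℝ) :=
    (tendsto_const_nhds.inner W.tendsto_p)
  have h2 := W.gp_strictMono
  refine lt_of_lt_of_le (h2 (Nat.lt_succ_self k)) ?_
  exact h2.monotone.ge_of_tendsto h1 _

end Cfg

end Pool.Agent.H270R2.St
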