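import Mathlib
import Pool.Agent.H270R2.St.Cfg

set_option autoImplicit false

open scoped MeasureTheory ENNReal InnerProductSpace Topology
open MeasureTheory Set Filter

set_option linter.unusedSectionVars false
set_option linter.unusedVariables false

namespace Pool.Agent.H270R2.St

variable {E : Type*} [NormedAddCommGroup E] [InnerProductSpace ℝ E] [CompleteSpace E]
  [MeasurableSpace E] [BorelSpace E]

namespace Cfg

variable (W : Cfg E)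

/-- distance to the branch point number `m + 1`. -/
noncomputable def f (m : ℕ) (x : E) : ℝ := dist x (W.p (m + 1))

lemma f_lip (m : ℕ) : LipschitzWith 1 (W.f m) := LipschitzWith.dist_left _

lemma f_cont (m : ℕ) : Continuous (W.f m) := (W.f_lip m).continuous

/-- Terminals are in `T`. -/
structure Comp (T : Set E) : Prop where
  comp : IsCompact T
  conn : IsPreconnected T
  h0 : W.p 0 ∈ T
  ha : ∀ k, W.a k ∈ T
  hinf : W.pinf ∈ T
  hH : μH[1] T ≤ ENNReal.ofReal Ltot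

/-- A cut. -/
structure Cut (T : Set E) (m : ℕ) (ρ : ℝ) (q : E) : Prop where
  r1 : 2 * lam ^ (m + 1) < ρ
  r2 : ρ < lam ^ m / 2
  hq : T ∩ W.f m ⁻¹' {ρ} = {q}
  low : ENNReal.ofReal (ell m + ⟪W.w m, q - W.p (m + 1)⟫_ℝ) ≤ μH[1] (T ∩ W.f m ⁻¹' Ioi ρ)

variable {W}

lemma Cut.mem {T : Set E} {m : ℕ} {ρ : ℝ} {q : E} (h : W.Cut T m ρ q) : q ∈ T ∧ W.f m q = ρ := by
  have : q ∈ T ∩ W.f m ⁻¹' {ρ} := by rw [h.hq]; rfl
  exact this

lemma lam_succ_le (m : ℕ) : lam ^ (m + 1) = lam ^ m / 1000 := by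
  rw [pow_succ]; unfold lam; ring

/-- Measures of open and closed outside agree up to a point. -/
lemma meas_Ici {A : Set E} {m : ℕ} {ρ : ℝ} {q : E} (h : A ∩ W.f m ⁻¹' {ρ} ⊆ {q}) :
    μH[1] (A ∩ W.f m ⁻¹' Ici ρ) ≤ μH[1] (A ∩ W.f m ⁻¹' Ioi ρ) := by
  have h1 : A ∩ W.f m ⁻¹' Ici ρ ⊆ (A ∩ W.f m ⁻¹' Ioi ρ) ∪ {q} := by
    rintro x ⟨hx, hx2⟩
    rcases eq_or_lt_of_le (show ρ ≤ W.f m x from hx2) with h3 | h3
    · right; exact h ⟨hx, h3.symm⟩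
    · left; exact ⟨hx, h3⟩
  calc _ ≤ μH[1] ((A ∩ W.f m ⁻¹' Ioi ρ) ∪ {q}) := measure_mono h1
    _ ≤ μH[1] (A ∩ W.f m ⁻¹' Ioi ρ) + μH[1] ({q} : Set E) := measure_union_le _ _
    _ = _ := by rw [noAtom, add_zero]

lemma meas_split {A : Set E} (hA : MeasurableSet A) (m : ℕ) (ρ : ℝ) :
    μH[1] A = μH[1] (A ∩ W.f m ⁻¹' Iic ρ) + μH[1] (A ∩ W.f m ⁻¹' Ioi ρ) := by
  have hm : MeasurableSet (W.f m ⁻¹' Iic ρ) := (W.f_cont m).measurable measurableSet_Iic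
  rw [← measure_inter_add_sdiff A hm]
  congr 2
  ext x
  simp

/-- Existence of the first cut. -/
lemma cut_zero {T : Set E} (hT : W.Comp T) : ∃ ρ q, W.Cut T 0 ρ q := by
  have d01 : W.f 0 (W.p 0) = 1 := by
    unfold f; rw [W.dist_p_succ 0]; norm_num
  have dinf : W.f 0 W.pinf ≤ 2 * lam := by
    unfold f; rw [dist_comm]; simpa using W.dist_p_inf 1
  have hl : lam = 1 / 1000 := rfl
  have ex : ∃ ρ q, 2 * lam < ρ ∧ ρ < 1 / 2 ∧ T ∩ W.f 0 ⁻¹' {ρ} = {q} := by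
    by_contra hcon
    push Not at hcon
    have h2 : ∀ t ∈ Ioo (2 * lam) (1 / 2), ∃ x ∈ T, ∃ y ∈ T, x ≠ y ∧ W.f 0 x = t ∧ W.f 0 y = t := by
      intro t ht
      obtain ⟨x, hx, hxt⟩ := hT.conn.intermediate_value hT.hinf hT.h0 (W.f_cont 0).continuousOn
        (show t ∈ Icc (W.f 0 W.pinf) (W.f 0 (W.p 0)) by
          rw [d01]; exact ⟨dinf.trans ht.1.le, by linarith [ht.2]⟩)
      have hne := hcon t x ht.1 ht.2
      have hx' : x ∈ T ∩ W.f 0 ⁻¹' {t} := ⟨hx, hxt⟩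
      by_contra hcon2
      push Not at hcon2
      apply hne
      apply Subset.antisymm
      · intro y hy
        by_contra hyx
        exact hcon2 x hx y hy.1 (fun h => hyx h.symm) hxt hy.2
      · intro y hy; rw [mem_singleton_iff.1 hy]; exact hx'
    have h3 := H_slab2 (W.f_lip 0) hT.comp h2
    have h4 := H_slab (W.f_lip 0) hT.conn hT.hinf hT.h0 (a := 1/2) (b := 1)
      (by rw [hl] at dinf; linarith) (by rw [d01])
    have h5 := meas_split (W := W) hT.comp.measurableSet 0 (1/2)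
    have h6 : μH[1] (T ∩ W.f 0 ⁻¹' Ioo (2 * lam) (1/2)) ≤ μH[1] (T ∩ W.f 0 ⁻¹' Iic (1/2)) :=
      measure_mono (inter_subset_inter_right _ (preimage_mono (fun x hx => hx.2.le)))
    have h7 : μH[1] (T ∩ W.f 0 ⁻¹' Ioo (1/2) 1) ≤ μH[1] (T ∩ W.f 0 ⁻¹' Ioi (1/2)) :=
      measure_mono (inter_subset_inter_right _ (preimage_mono (fun x hx => hx.1)))
    have h8 : ENNReal.ofReal (2 * (1/2 - 2 * lam) + (1 - 1/2)) ≤ ENNReal.ofReal Ltot := by
      refine le_trans ?_ hT.hH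
      rw [h5, ENNReal.ofReal_add (by rw [hl]; norm_num) (by norm_num),
        ENNReal.ofReal_mul (by norm_num)]
      have e2 : ENNReal.ofReal 2 = 2 := by norm_num
      rw [e2]
      exact add_le_add (h3.trans h6) (h4.trans h7)
    rw [ENNReal.ofReal_le_ofReal_iff (by unfold Ltot lam; norm_num)] at h8
    unfold Ltot lam at h8
    norm_num at h8
  obtain ⟨ρ, q, r1, r2, hq⟩ := ex
  refine ⟨ρ, q, by simpa using r1, by simpa using r2, hq, ?_⟩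
  have hqT : q ∈ T ∩ W.f 0 ⁻¹' {ρ} := by rw [hq]; rfl
  have hc := cut' hT.comp.isClosed hT.conn (W.f_cont 0) hq
  have h1 : W.p 0 ∈ T ∩ W.f 0 ⁻¹' Ici ρ := ⟨hT.h0, by
    show ρ ≤ W.f 0 (W.p 0); rw [d01]; linarith⟩
  have h2 : q ∈ T ∩ W.f 0 ⁻¹' Ici ρ := ⟨hqT.1, le_of_eq hqT.2.symm⟩
  refine le_trans ?_ ((H_conn hc h1 h2).trans (meas_Ici hq.subset))
  apply ENNReal.ofReal_le_ofReal
  have h3 := inner_le_dist (W.hw 0) q (W.p 0)
  rw [dist_comm q] at h3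
  refine le_trans (le_of_eq ?_) h3
  rw [ell_zero, inner_sub_right, inner_sub_right, W.inner_wp 0]
  simp; ring

lemma infdist (m : ℕ) : W.f m W.pinf < 2 * lam ^ (m + 1) := by
  unfold f; rw [dist_comm]; exact W.dist_p_inf_lt (m + 1)

/-- The inner part at a cut. -/
lemma inner_part {T : Set E} (hT : W.Comp T) {m : ℕ} {ρ : ℝ} {q : E} (h : W.Cut T m ρ q) :
    IsCompact (T ∩ W.f m ⁻¹' Iic ρ) ∧ IsPreconnected (T ∩ W.f m ⁻¹' Iic ρ) ∧
    q ∈ T ∩ W.f m ⁻¹' Iic ρ ∧ W.a m ∈ T ∩ W.f m ⁻¹' Iic ρ ∧ W.pinf ∈ T ∩ W.f m ⁻¹' Iic ρ := by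
  refine ⟨hT.comp.inter_right (isClosed_Iic.preimage (W.f_cont m)),
    cut hT.comp.isClosed hT.conn (W.f_cont m) h.hq, ⟨h.mem.1, h.mem.2.le⟩, ⟨hT.ha m, ?_⟩,
    ⟨hT.hinf, ?_⟩⟩
  · show W.f m (W.a m) ≤ ρ
    unfold f; rw [W.dist_a]
    have := h.r1; have := lam_pow_pos (m + 1); linarith
  · show W.f m W.pinf ≤ ρ
    have := infdist (W := W) m; have := h.r1; linarith

lemma f_succ_le (m : ℕ) (x : E) : W.f m x ≤ W.f (m + 1) x + lam ^ (m + 1) := by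
  unfold f
  have := dist_triangle x (W.p (m + 2)) (W.p (m + 1))
  rw [dist_comm (W.p (m + 2)), W.dist_p_succ] at this
  exact this

lemma cut_value (m : ℕ) (q q' : E) :
    ell m + ⟪W.w m, q - W.p (m + 1)⟫_ℝ + (⟪-W.w m, q⟫_ℝ + ⟪W.v m, W.a m⟫_ℝ + ⟪W.w (m + 1), q'⟫_ℝ)
      = ell (m + 1) + ⟪W.w (m + 1), q' - W.p (m + 2)⟫_ℝ := by
  have h1 := W.inner_va m
  have h2 := W.inner_wp (m + 1)
  have h3 : ⟪-W.w m, W.p (m + 1)⟫_ℝ + ⟪W.v m, W.p (m + 1)⟫_ℝ + ⟪W.w (m + 1), W.p (m + 1)⟫_ℝ = 0 := by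
    rw [← inner_add_left, ← inner_add_left, W.sum_zero, inner_zero_left]
  rw [ell_succ, inner_sub_right, inner_sub_right, inner_neg_left] at *
  linarith

lemma out_sub (m : ℕ) {T : Set E} {ρ ρ' : ℝ} (hρ : 2 * lam ^ (m + 1) < ρ)
    (hρ' : ρ' < lam ^ (m + 1) / 2) :
    (T ∩ W.f m ⁻¹' Iic ρ) ∩ W.f (m + 1) ⁻¹' {ρ'} = T ∩ W.f (m + 1) ⁻¹' {ρ'} := by
  apply Subset.antisymm
  · rintro x ⟨⟨h1, h2⟩, h3⟩; exact ⟨h1, h3⟩
  · rintro x ⟨h1, h3⟩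
    refine ⟨⟨h1, ?_⟩, h3⟩
    have h4 := f_succ_le (W := W) m x
    have h5 : W.f (m + 1) x = ρ' := h3
    have h6 := lam_pow_pos (m + 1)
    show W.f m x ≤ ρ
    linarith

/-- Additivity of outside measures. -/
lemma out_add {T : Set E} (hT : W.Comp T) (m : ℕ) {ρ ρ' : ℝ} (hρ : 2 * lam ^ (m + 1) < ρ)
    (hρ' : ρ' < lam ^ (m + 1) / 2) :
    μH[1] (T ∩ W.f (m + 1) ⁻¹' Ioi ρ') = μH[1] (T ∩ W.f m ⁻¹' Ioi ρ) +
      μH[1] ((T ∩ W.f m ⁻¹' Iic ρ) ∩ W.f (m + 1) ⁻¹' Ioi ρ') := by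
  have hm : MeasurableSet (T ∩ W.f (m + 1) ⁻¹' Ioi ρ') :=
    hT.comp.measurableSet.inter ((W.f_cont _).measurable measurableSet_Ioi)
  rw [meas_split (W := W) hm m ρ, add_comm]
  congr 2
  · ext x
    simp only [mem_inter_iff, mem_preimage, mem_Ioi]
    constructor
    · rintro ⟨⟨h1, h2⟩, h3⟩; exact ⟨h1, h3⟩
    · rintro ⟨h1, h3⟩
      refine ⟨⟨h1, ?_⟩, h3⟩
      have h4 := f_succ_le (W := W) m x
      have h6 := lam_pow_pos (m + 1)
      linarith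
  · ext x
    simp only [mem_inter_iff, mem_preimage, mem_Ioi, mem_Iic]
    tauto

/-- The piece between two cuts. -/
lemma piece {T : Set E} (hT : W.Comp T) {m : ℕ} {ρ ρ' : ℝ} {q q' : E} (h : W.Cut T m ρ q)
    (r1 : 2 * lam ^ (m + 2) < ρ') (r2 : ρ' < lam ^ (m + 1) / 2)
    (hq' : T ∩ W.f (m + 1) ⁻¹' {ρ'} = {q'}) :
    IsCompact ((T ∩ W.f m ⁻¹' Iic ρ) ∩ W.f (m + 1) ⁻¹' Ici ρ') ∧
    IsPreconnected ((T ∩ W.f m ⁻¹' Iic ρ) ∩ W.f (m + 1) ⁻¹' Ici ρ') ∧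
    q ∈ (T ∩ W.f m ⁻¹' Iic ρ) ∩ W.f (m + 1) ⁻¹' Ici ρ' ∧
    W.a m ∈ (T ∩ W.f m ⁻¹' Iic ρ) ∩ W.f (m + 1) ⁻¹' Ici ρ' ∧
    q' ∈ (T ∩ W.f m ⁻¹' Iic ρ) ∩ W.f (m + 1) ⁻¹' Ici ρ' ∧
    μH[1] ((T ∩ W.f m ⁻¹' Iic ρ) ∩ W.f (m + 1) ⁻¹' Ici ρ') ≤
      μH[1] ((T ∩ W.f m ⁻¹' Iic ρ) ∩ W.f (m + 1) ⁻¹' Ioi ρ') := by
  obtain ⟨k1, k2, k3, k4, k5⟩ := inner_part hT h
  have hK := out_sub (W := W) m (T := T) h.r1 r2
  rw [hq'] at hK
  have hlam := lam_pow_pos (m + 1)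
  have hq'K : q' ∈ (T ∩ W.f m ⁻¹' Iic ρ) ∩ W.f (m + 1) ⁻¹' {ρ'} := by rw [hK]; rfl
  refine ⟨k1.inter_right (isClosed_Ici.preimage (W.f_cont _)),
    cut' k1.isClosed k2 (W.f_cont _) hK, ⟨k3, ?_⟩, ⟨k4, ?_⟩, ⟨hq'K.1, le_of_eq hq'K.2.symm⟩,
    meas_Ici hK.subset⟩
  · show ρ' ≤ W.f (m + 1) q
    have h1 := f_succ_le (W := W) m q
    have h2 := h.mem.2
    have h3 := h.r1
    linarith
  · show ρ' ≤ W.f (m + 1) (W.a m)
    unfold f
    rw [show m + 1 + 1 = m + 2 from rfl, W.dist_a_succ]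
    have : 1 ≤ Real.sqrt 3 := by rw [Real.one_le_sqrt]; norm_num
    nlinarith

lemma cut_low {T : Set E} (hT : W.Comp T) {m : ℕ} {ρ ρ' : ℝ} {q q' : E} (h : W.Cut T m ρ q)
    (r1 : 2 * lam ^ (m + 2) < ρ') (r2 : ρ' < lam ^ (m + 1) / 2)
    (hq' : T ∩ W.f (m + 1) ⁻¹' {ρ'} = {q'}) : W.Cut T (m + 1) ρ' q' := by
  refine ⟨r1, r2, hq', ?_⟩
  obtain ⟨k1, k2, k3, k4, k5, k6⟩ := piece hT h r1 r2 hq'
  have h1 := tripod_cal k1 k2 k3 k4 k5 (by rw [norm_neg]; exact W.hw m) (W.hv m) (W.hw (m + 1))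
    (W.sum_zero m)
  rw [out_add hT m h.r1 r2, show m + 1 + 1 = m + 2 from rfl, ← cut_value m q q']
  exact ENNReal.ofReal_add_le.trans (add_le_add h.low (h1.trans k6))

lemma sqrt3_lt : Real.sqrt 3 < 1.7321 := by
  rw [show (1.7321:ℝ) = Real.sqrt (1.7321^2) by rw [Real.sqrt_sq (by norm_num)]]
  exact Real.sqrt_lt_sqrt (by norm_num) (by norm_num)

/-- Existence of the next cut. -/
lemma cut_succ {T : Set E} (hT : W.Comp T) {m : ℕ} {ρ : ℝ} {q : E} (h : W.Cut T m ρ q) :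
    ∃ ρ' q', W.Cut T (m + 1) ρ' q' := by
  by_contra hcon0
  have hcon : ∀ ρ' q', 2 * lam ^ (m + 2) < ρ' → ρ' < lam ^ (m + 1) / 2 →
      T ∩ W.f (m + 1) ⁻¹' {ρ'} ≠ {q'} := by
    intro ρ' q' r1 r2 hq'
    exact hcon0 ⟨ρ', q', cut_low hT h r1 r2 hq'⟩
  obtain ⟨k1, k2, k3, k4, k5⟩ := inner_part hT h
  set K := T ∩ W.f m ⁻¹' Iic ρ with hK
  have hlam := lam_pow_pos (m + 1)
  have hlam2 : lam ^ (m + 2) = lam ^ (m + 1) / 1000 := lam_succ_le (m + 1)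
  set b := W.p (m + 2) with hb
  set R := lam ^ (m + 1) / 2 with hR
  have hR0 : 0 < R := by positivity
  have ha1 : W.f (m + 1) (W.a m) = Real.sqrt 3 * lam ^ (m + 1) := W.dist_a_succ m
  have hs3 : 1 ≤ Real.sqrt 3 := by rw [Real.one_le_sqrt]; norm_num
  have hinf : W.f (m + 1) W.pinf < 2 * lam ^ (m + 2) := infdist (W := W) (m + 1)
  -- two points on each sphere
  have h2 : ∀ t ∈ Ioo (2 * lam ^ (m + 2)) R, ∃ x ∈ K, ∃ y ∈ K, x ≠ y ∧ W.f (m + 1) x = t ∧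
      W.f (m + 1) y = t := by
    intro t ht
    obtain ⟨x, hx, hxt⟩ := k2.intermediate_value k5 k4 (W.f_cont (m + 1)).continuousOn
      (show t ∈ Icc (W.f (m + 1) W.pinf) (W.f (m + 1) (W.a m)) by
        rw [ha1]
        refine ⟨(hinf.trans ht.1).le, ?_⟩
        have := ht.2
        nlinarith)
    have hne := hcon t x ht.1 ht.2
    rw [← out_sub (W := W) m (T := T) h.r1 ht.2] at hne
    by_contra hcon2
    push Not at hcon2
    apply hne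
    apply Subset.antisymm
    · intro y hy
      by_contra hyx
      exact hcon2 x hx y hy.1 (fun h => hyx h.symm) hxt hy.2
    · intro y hy; rw [mem_singleton_iff.1 hy]; exact ⟨hx, hxt⟩
  have h3 := H_slab2 (W.f_lip (m + 1)) k1 h2
  -- collapsed set
  have gl := coll_lip b hR0
  have c1 : IsCompact (coll b R '' K) := k1.image gl.continuous
  have c2 : IsPreconnected (coll b R '' K) := k2.image _ gl.continuous.continuousOn
  have hbK : b ∈ coll b R '' K := by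
    refine ⟨W.pinf, k5, coll_in b hR0 ?_⟩
    have : dist W.pinf b = W.f (m + 1) W.pinf := rfl
    rw [this]
    linarith
  have h4 := tripod_cal c1 c2 (mem_image_of_mem _ k3) (mem_image_of_mem _ k4) hbK
    (u := -W.w m) (v := W.v m) (w := W.w (m + 1))
    (by rw [norm_neg]; exact W.hw m) (W.hv m) (W.hw (m + 1)) (W.sum_zero m)
  have h5 : μH[1] (coll b R '' K) ≤ μH[1] (K ∩ W.f (m + 1) ⁻¹' Ioi R) := by
    have hsub : coll b R '' K ⊆ (coll b R '' (K ∩ W.f (m + 1) ⁻¹' Ioi R)) ∪ {b} := by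
      rintro _ ⟨x, hx, rfl⟩
      by_cases hxR : R < W.f (m + 1) x
      · left; exact ⟨x, ⟨hx, hxR⟩, rfl⟩
      · right; exact coll_in b hR0 (not_lt.1 hxR)
    calc μH[1] (coll b R '' K) ≤ μH[1] ((coll b R '' (K ∩ W.f (m + 1) ⁻¹' Ioi R)) ∪ {b}) :=
          measure_mono hsub
      _ ≤ μH[1] (coll b R '' (K ∩ W.f (m + 1) ⁻¹' Ioi R)) + μH[1] ({b} : Set E) :=
          measure_union_le _ _
      _ = μH[1] (coll b R '' (K ∩ W.f (m + 1) ⁻¹' Ioi R)) := by rw [noAtom, add_zero]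
      _ ≤ _ := by
          have := gl.hausdorffMeasure_image_le (d := 1) zero_le_one (K ∩ W.f (m + 1) ⁻¹' Ioi R)
          simpa using this
  have h6 : μH[1] (K ∩ W.f (m + 1) ⁻¹' Ioo (2 * lam ^ (m + 2)) R) ≤
      μH[1] (K ∩ W.f (m + 1) ⁻¹' Iic R) :=
    measure_mono (inter_subset_inter_right _ (preimage_mono (fun x hx => hx.2.le)))
  have h7 := meas_split (W := W) k1.measurableSet (m + 1) R
  have h8 := meas_split (W := W) hT.comp.measurableSet m ρ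
  -- total
  set X := ⟪-W.w m, coll b R q⟫_ℝ + ⟪W.v m, coll b R (W.a m)⟫_ℝ + ⟪W.w (m + 1), b⟫_ℝ with hX
  have h9 : ENNReal.ofReal (ell m + ⟪W.w m, q - W.p (m + 1)⟫_ℝ + (2 * (R - 2 * lam ^ (m + 2)) + X))
      ≤ ENNReal.ofReal Ltot := by
    refine le_trans ?_ hT.hH
    rw [h8, add_comm (μH[1] (T ∩ W.f m ⁻¹' Iic ρ))]
    refine ENNReal.ofReal_add_le.trans (add_le_add h.low ?_)
    rw [h7]
    refine ENNReal.ofReal_add_le.trans (add_le_add ?_ (h4.trans h5))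
    rw [ENNReal.ofReal_mul (by norm_num)]
    have e2 : ENNReal.ofReal 2 = 2 := by norm_num
    rw [e2]
    exact h3.trans h6
  rw [ENNReal.ofReal_le_ofReal_iff (by unfold Ltot lam; norm_num)] at h9
  -- estimates
  have e1 : -⟪W.w m, q⟫_ℝ - R ≤ ⟪-W.w m, coll b R q⟫_ℝ := by
    have h10 := real_inner_le_norm (W.w m) (coll b R q - q)
    rw [W.hw, one_mul] at h10
    have h11 := coll_dist b hR0 q
    rw [inner_sub_right] at h10
    rw [inner_neg_left]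
    linarith
  have e2 : ⟪W.v m, coll b R (W.a m)⟫_ℝ = ⟪W.v m, W.a m⟫_ℝ - R * Real.sqrt 3 / 2 := by
    have hd : dist (W.a m) b = Real.sqrt 3 * lam ^ (m + 1) := W.dist_a_succ m
    rw [coll_out b (by rw [hd]; nlinarith), inner_sub_right, inner_smul_right, hb, W.inner_a_sub,
      ← hb, hd]
    have h33 : Real.sqrt 3 * Real.sqrt 3 = 3 := Real.mul_self_sqrt (by norm_num)
    field_simp
    linear_combination (lam * lam ^ m / 2) * h33
  have e3 := cut_value (W := W) m q b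
  rw [hb, sub_self, inner_zero_right, add_zero, ← hb, inner_neg_left] at e3
  have e4 : ell (m + 1) = Ltot - 2 * lam ^ (m + 2) / (1 - lam) := rfl
  have e5 : 2 * lam ^ (m + 2) / (1 - lam) ≤ 3 * lam ^ (m + 2) := by
    rw [div_le_iff₀ (by linarith [lam_lt])]
    have h1 := lam_pow_pos (m + 2)
    have h2 : lam = 1 / 1000 := rfl
    rw [h2] at h1 ⊢
    linarith
  have e6 := sqrt3_lt
  rw [hX] at h9
  have e7 : R * Real.sqrt 3 / 2 ≤ R * 0.86605 := by nlinarith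
  linarith

lemma exists_cuts {T : Set E} (hT : W.Comp T) :
    ∃ (ρ : ℕ → ℝ) (q : ℕ → E), ∀ m, W.Cut T m (ρ m) (q m) := by
  have : ∀ m, ∃ ρ q, W.Cut T m ρ q := by
    intro m
    induction m with
    | zero => exact cut_zero hT
    | succ m ih =>
      obtain ⟨ρ, q, h⟩ := ih
      exact cut_succ hT h
  choose ρ q h using this
  exact ⟨ρ, q, h⟩

end Cfg

end Pool.Agent.H270R2.St
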