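import Mathlib
import Pool.Agent.H270R2.St.Ana

set_option autoImplicit false

open scoped MeasureTheory ENNReal InnerProductSpace Topology
open MeasureTheory Set Filter

set_option linter.unusedSectionVars false
set_option linter.unusedVariables false

namespace Pool.Agent.H270R2.St

variable {E : Type*} [NormedAddCommGroup E] [InnerProductSpace ℝ E] [CompleteSpace E]
  [MeasurableSpace E] [BorelSpace E]

namespace Cfg

variable {W : Cfg E}

/-- The calibrated value outside the cut. -/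
noncomputable def val (W : Cfg E) (m : ℕ) (q : E) : ℝ := ell m + ⟪W.w m, q - W.p (m + 1)⟫_ℝ

lemma val_ge {T : Set E} {m : ℕ} {ρ : ℝ} {q : E} (h : W.Cut T m ρ q) :
    Ltot - lam ^ m ≤ W.val m q := by
  unfold val
  have h1 := real_inner_le_norm (W.w m) (W.p (m + 1) - q)
  rw [W.hw, one_mul, ← dist_eq_norm, dist_comm, inner_sub_right] at h1
  have h2 : dist q (W.p (m + 1)) = ρ := h.mem.2
  rw [h2] at h1
  rw [inner_sub_right]
  have h3 := h.r2
  unfold ell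
  have h5 : 2 * lam ^ (m + 1) / (1 - lam) ≤ 3 * lam ^ (m + 1) := by
    rw [div_le_iff₀ (by linarith [lam_lt])]
    have h1 := lam_pow_pos (m + 1)
    have h2 : lam = 1 / 1000 := rfl
    rw [h2] at h1 ⊢
    linarith
  have h6 := lam_succ_le m
  have h7 := lam_pow_pos m
  linarith

lemma tend_lam : Tendsto (fun m : ℕ => lam ^ m) atTop (𝓝 0) :=
  tendsto_pow_atTop_nhds_zero_of_lt_one lam_pos.le lam_lt

/-- Lower bound. -/
lemma lower {T : Set E} (hT : W.Comp T) : ENNReal.ofReal Ltot ≤ μH[1] T := by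
  obtain ⟨ρ, q, hc⟩ := exists_cuts hT
  have h1 : ∀ m : ℕ, ENNReal.ofReal (Ltot - lam ^ m) ≤ μH[1] T := fun m =>
    (ENNReal.ofReal_le_ofReal (val_ge (hc m))).trans
      ((hc m).low.trans (measure_mono inter_subset_left))
  have h2 : Tendsto (fun m : ℕ => ENNReal.ofReal (Ltot - lam ^ m)) atTop (𝓝 (ENNReal.ofReal Ltot)) := by
    have : Tendsto (fun m : ℕ => Ltot - lam ^ m) atTop (𝓝 (Ltot - 0)) :=
      tendsto_const_nhds.sub tend_lam
    rw [sub_zero] at this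
    exact ENNReal.tendsto_ofReal this
  exact le_of_tendsto' h2 h1

lemma Ltot_pos : 0 < Ltot := by unfold Ltot lam; norm_num

lemma val_succ (m : ℕ) (q q' : E) :
    W.val m q + (⟪-W.w m, q⟫_ℝ + ⟪W.v m, W.a m⟫_ℝ + ⟪W.w (m + 1), q'⟫_ℝ) = W.val (m + 1) q' :=
  cut_value m q q'

/-- Everything is finite. -/
lemma fin {T : Set E} (hT : W.Comp T) {A : Set E} (hA : A ⊆ T) : μH[1] A ≠ ⊤ :=
  ne_top_of_le_ne_top ENNReal.ofReal_ne_top ((measure_mono hA).trans hT.hH)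

lemma real_low {T : Set E} (hT : W.Comp T) {A : Set E} (hA : A ⊆ T) {r : ℝ}
    (h : ENNReal.ofReal r ≤ μH[1] A) : r ≤ (μH[1] A).toReal := by
  rcases le_total r 0 with h0 | h0
  · exact h0.trans ENNReal.toReal_nonneg
  · exact (ENNReal.ofReal_le_iff_le_toReal (fin hT hA)).1 h

lemma excess_zero {T : Set E} (hT : W.Comp T) {ρ : ℕ → ℝ} {q : ℕ → E}
    (hc : ∀ m, W.Cut T m (ρ m) (q m)) (m : ℕ) :
    (μH[1] (T ∩ W.f m ⁻¹' Ioi (ρ m))).toReal = W.val m (q m) := by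
  have low : ∀ m, W.val m (q m) ≤ (μH[1] (T ∩ W.f m ⁻¹' Ioi (ρ m))).toReal :=
    fun m => real_low hT inter_subset_left (hc m).low
  apply le_antisymm _ (low m)
  by_contra hcon
  push Not at hcon
  set δ := (μH[1] (T ∩ W.f m ⁻¹' Ioi (ρ m))).toReal - W.val m (q m) with hδ
  have hδ0 : 0 < δ := by rw [hδ]; linarith
  have step : ∀ n, W.val (m + n) (q (m + n)) + δ ≤
      (μH[1] (T ∩ W.f (m + n) ⁻¹' Ioi (ρ (m + n)))).toReal := by
    intro n
    induction n with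
    | zero => rw [hδ]; simp
    | succ n ih =>
      obtain ⟨k1, k2, k3, k4, k5, k6⟩ := piece hT (hc (m + n)) (hc (m + n + 1)).r1
        (hc (m + n + 1)).r2 (hc (m + n + 1)).hq
      have h1 := (tripod_cal k1 k2 k3 k4 k5 (by rw [norm_neg]; exact W.hw _) (W.hv _)
        (W.hw (m + n + 1)) (W.sum_zero _)).trans k6
      have h2 := out_add hT (m + n) (hc (m + n)).r1 (hc (m + n + 1)).r2
      have h3 := real_low hT (inter_subset_left.trans inter_subset_left) h1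
      rw [← add_assoc, h2, ENNReal.toReal_add (fin hT inter_subset_left)
        (fin hT (inter_subset_left.trans inter_subset_left)), ← val_succ (W := W) (m + n) (q (m + n))]
      linarith
  have up : ∀ n, δ ≤ lam ^ (m + n) := by
    intro n
    have h1 : (μH[1] (T ∩ W.f (m + n) ⁻¹' Ioi (ρ (m + n)))).toReal ≤ Ltot := by
      apply ENNReal.toReal_le_of_le_ofReal Ltot_pos.le
      exact (measure_mono inter_subset_left).trans hT.hH
    have h2 := step n
    have h3 := val_ge (hc (m + n))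
    linarith
  have h4 : Tendsto (fun n : ℕ => lam ^ (m + n)) atTop (𝓝 0) := by
    have := tend_lam.comp (tendsto_add_atTop_nat m)
    refine this.congr (fun n => ?_)
    simp [Function.comp, add_comm]
  have := ge_of_tendsto' h4 up
  linarith

/-- Upper bound for the pieces. -/
lemma piece_le {T : Set E} (hT : W.Comp T) {ρ : ℕ → ℝ} {q : ℕ → E}
    (hc : ∀ m, W.Cut T m (ρ m) (q m)) (m : ℕ) :
    μH[1] ((T ∩ W.f m ⁻¹' Iic (ρ m)) ∩ W.f (m + 1) ⁻¹' Ici (ρ (m + 1))) ≤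
      ENNReal.ofReal (⟪-W.w m, q m⟫_ℝ + ⟪W.v m, W.a m⟫_ℝ + ⟪W.w (m + 1), q (m + 1)⟫_ℝ) := by
  obtain ⟨k1, k2, k3, k4, k5, k6⟩ := piece hT (hc m) (hc (m + 1)).r1 (hc (m + 1)).r2 (hc (m + 1)).hq
  refine k6.trans ?_
  have h2 := out_add hT m (hc m).r1 (hc (m + 1)).r2
  have e1 := excess_zero hT hc m
  have e2 := excess_zero hT hc (m + 1)
  rw [h2, ENNReal.toReal_add (fin hT inter_subset_left)
    (fin hT (inter_subset_left.trans inter_subset_left)), e1] at e2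
  have e3 := val_succ (W := W) m (q m) (q (m + 1))
  rw [← ENNReal.ofReal_toReal (fin hT (inter_subset_left.trans inter_subset_left :
    (T ∩ W.f m ⁻¹' Iic (ρ m)) ∩ W.f (m + 1) ⁻¹' Ioi (ρ (m + 1)) ⊆ T))]
  apply ENNReal.ofReal_le_ofReal
  linarith

/-- Structure of the pieces. -/
lemma structure_pieces {T : Set E} (hT : W.Comp T) {ρ : ℕ → ℝ} {q : ℕ → E}
    (hc : ∀ m, W.Cut T m (ρ m) (q m)) :
    (T ∩ W.f 0 ⁻¹' Ici (ρ 0) = segment ℝ (W.p 0) (q 0)) ∧
    ∀ m, (∃ t : ℝ, 0 ≤ t ∧ t ≤ lam ^ m ∧ q m = W.p m + t • W.w m) ∧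
      (T ∩ W.f m ⁻¹' Iic (ρ m)) ∩ W.f (m + 1) ⁻¹' Ici (ρ (m + 1)) =
        segment ℝ (q m) (W.p (m + 1)) ∪ segment ℝ (W.a m) (W.p (m + 1)) ∪
        segment ℝ (q (m + 1)) (W.p (m + 1)) := by
  -- base piece
  have hq0 := (hc 0).mem
  have d01 : W.f 0 (W.p 0) = 1 := by
    unfold f; rw [W.dist_p_succ 0]; norm_num
  have b1 : IsCompact (T ∩ W.f 0 ⁻¹' Ici (ρ 0)) :=
    hT.comp.inter_right (isClosed_Ici.preimage (W.f_cont 0))
  have b2 := cut' hT.comp.isClosed hT.conn (W.f_cont 0) (hc 0).hq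
  have b3 : W.p 0 ∈ T ∩ W.f 0 ⁻¹' Ici (ρ 0) := ⟨hT.h0, by
    show ρ 0 ≤ W.f 0 (W.p 0)
    rw [d01]; have := (hc 0).r2; norm_num at this; linarith⟩
  have b4 : q 0 ∈ T ∩ W.f 0 ⁻¹' Ici (ρ 0) := ⟨hq0.1, le_of_eq hq0.2.symm⟩
  have b5 : μH[1] (T ∩ W.f 0 ⁻¹' Ici (ρ 0)) ≤
      ENNReal.ofReal (⟪-W.w 0, W.p 0⟫_ℝ + ⟪W.v 0, q 0⟫_ℝ + ⟪W.w 1, q 0⟫_ℝ) := by
    refine (meas_Ici (hc 0).hq.subset).trans ?_
    rw [← ENNReal.ofReal_toReal (fin hT inter_subset_left), excess_zero hT hc 0]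
    apply ENNReal.ofReal_le_ofReal
    unfold val
    rw [ell_zero, inner_sub_right, W.inner_wp 0, inner_neg_left]
    have : ⟪W.v 0, q 0⟫_ℝ = ⟪W.w 0, q 0⟫_ℝ - ⟪W.w 1, q 0⟫_ℝ := by
      unfold v; rw [inner_sub_left]
    rw [this]; simp only [pow_zero]; linarith
  obtain ⟨z, z1, z2, z3, z4⟩ := rigid b1 b2 b3 b4 b4 (by rw [norm_neg]; exact W.hw 0) (W.hv 0)
    (W.hw 1) (W.sum_zero 0) b5
  have hzq : q 0 = z := by
    have h1 : dist (q 0) z • W.v 0 = dist (q 0) z • W.w 1 := by rw [← z2, ← z3]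
    have h2 : ⟪W.v 0, dist (q 0) z • W.v 0⟫_ℝ = ⟪W.v 0, dist (q 0) z • W.w 1⟫_ℝ := by rw [h1]
    rw [inner_smul_right, inner_smul_right, W.vv, W.vw 0] at h2
    have h3 : dist (q 0) z = 0 := by linarith
    exact dist_eq_zero.1 h3
  have base : T ∩ W.f 0 ⁻¹' Ici (ρ 0) = segment ℝ (W.p 0) (q 0) := by
    rw [z4, ← hzq, segment_same]
    apply Subset.antisymm
    · rintro x ((h | h) | h)
      · exact h
      · rw [mem_singleton_iff.1 h]; exact right_mem_segment ℝ _ _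
      · rw [mem_singleton_iff.1 h]; exact right_mem_segment ℝ _ _
    · intro x h; exact Or.inl (Or.inl h)
  -- rigidity of pieces
  have R : ∀ m, ∃ z, q m - z = dist (q m) z • (-W.w m) ∧ W.a m - z = dist (W.a m) z • W.v m ∧
      q (m + 1) - z = dist (q (m + 1)) z • W.w (m + 1) ∧
      (T ∩ W.f m ⁻¹' Iic (ρ m)) ∩ W.f (m + 1) ⁻¹' Ici (ρ (m + 1)) =
        segment ℝ (q m) z ∪ segment ℝ (W.a m) z ∪ segment ℝ (q (m + 1)) z := by
    intro m
    obtain ⟨k1, k2, k3, k4, k5, k6⟩ := piece hT (hc m) (hc (m + 1)).r1 (hc (m + 1)).r2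
      (hc (m + 1)).hq
    exact rigid k1 k2 k3 k4 k5 (by rw [norm_neg]; exact W.hw m) (W.hv m) (W.hw (m + 1))
      (W.sum_zero m) (piece_le hT hc m)
  -- from the position of q m to z = p (m+1)
  have step : ∀ m, (∃ t : ℝ, 0 ≤ t ∧ q m = W.p m + t • W.w m) →
      (∃ t : ℝ, 0 ≤ t ∧ t ≤ lam ^ m ∧ q m = W.p m + t • W.w m) ∧
      (T ∩ W.f m ⁻¹' Iic (ρ m)) ∩ W.f (m + 1) ⁻¹' Ici (ρ (m + 1)) =
        segment ℝ (q m) (W.p (m + 1)) ∪ segment ℝ (W.a m) (W.p (m + 1)) ∪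
        segment ℝ (q (m + 1)) (W.p (m + 1)) ∧
      (∃ t : ℝ, 0 ≤ t ∧ q (m + 1) = W.p (m + 1) + t • W.w (m + 1)) := by
    rintro m ⟨t, ht, hqt⟩
    obtain ⟨z, y1, y2, y3, y4⟩ := R m
    set s := dist (q m) z with hs
    set r := dist (W.a m) z with hr
    have hs0 : 0 ≤ s := dist_nonneg
    have e1 : z = W.p m + (t + s) • W.w m := by
      have : z = q m - s • (-W.w m) := by rw [← y1]; abel
      rw [this, hqt]; module
    have e2 : z = W.p m + lam ^ m • W.w m + (lam ^ (m + 1) - r) • W.v m := by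
      have : z = W.a m - r • W.v m := by rw [← y2]; abel
      rw [this]; unfold a; rw [p_succ]; module
    have e3 : (t + s - lam ^ m) • W.w m = (lam ^ (m + 1) - r) • W.v m := by
      have h1 : (t + s - lam ^ m) • W.w m = z - (W.p m + lam ^ m • W.w m) := by rw [e1]; module
      have h2 : (lam ^ (m + 1) - r) • W.v m = z - (W.p m + lam ^ m • W.w m) := by
        nth_rewrite 1 [e2]; abel
      rw [h1, h2]
    have e4 : (t + s - lam ^ m) = (lam ^ (m + 1) - r) * (1 / 2) := by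
      have := congrArg (fun x => ⟪W.w m, x⟫_ℝ) e3
      simp only [inner_smul_right, W.ww_self, W.wv] at this
      linarith
    have e5 : (t + s - lam ^ m) * (1 / 2) = (lam ^ (m + 1) - r) := by
      have := congrArg (fun x => ⟪x, W.v m⟫_ℝ) e3
      simp only [inner_smul_left, W.vv, W.wv, conj_trivial] at this
      linarith
    have e6 : t + s = lam ^ m := by linarith
    have hz : z = W.p (m + 1) := by rw [e1, e6, p_succ]
    refine ⟨⟨t, ht, by linarith, hqt⟩, by rw [y4, hz], ⟨dist (q (m + 1)) z, dist_nonneg, ?_⟩⟩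
    rw [← y3, ← hz]; abel
  have all : ∀ m, ∃ t : ℝ, 0 ≤ t ∧ q m = W.p m + t • W.w m := by
    intro m
    induction m with
    | zero =>
      refine ⟨dist (W.p 0) z, dist_nonneg, ?_⟩
      have : z = W.p 0 - dist (W.p 0) z • (-W.w 0) := by rw [← z1]; abel
      rw [hzq]
      nth_rewrite 1 [this]
      module
    | succ m ih => exact (step m ih).2.2
  exact ⟨base, fun m => ⟨(step m (all m)).1, (step m (all m)).2.1⟩⟩

end Cfg

end Pool.Agent.H270R2.St
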