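import Mathlib
import Pool.Agent.H270R2.St.Eqc

set_option autoImplicit false

open scoped MeasureTheory ENNReal InnerProductSpace Topology
open MeasureTheory Set Filter

set_option linter.unusedSectionVars false
set_option linter.unusedVariables false

namespace Pool.Agent.H270R2.St

section general

variable {E : Type*} [NormedAddCommGroup E] [NormedSpace ℝ E]

lemma compact_shrink {X : ℕ → Set E} (hX : ∀ k, IsCompact (X k)) {x : E} {c : ℕ → ℝ}
    (hc : Tendsto c atTop (𝓝 0)) (hXc : ∀ k, X k ⊆ Metric.closedBall x (c k)) :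
    IsCompact ({x} ∪ ⋃ k, X k) := by
  apply isCompact_of_finite_subcover
  intro ι U hU hcov
  have hx : x ∈ ⋃ i, U i := hcov (Or.inl rfl)
  obtain ⟨i0, hi0⟩ := mem_iUnion.1 hx
  obtain ⟨ε, hε, hball⟩ := Metric.isOpen_iff.1 (hU i0) x hi0
  obtain ⟨N, hN⟩ := (Metric.tendsto_atTop.1 hc) ε hε
  have hfin : IsCompact (⋃ k ∈ Finset.range N, X k) :=
    (Finset.range N).isCompact_biUnion (fun k _ => hX k)
  obtain ⟨t, ht⟩ := hfin.elim_finite_subcover U hU (by
    intro y hy
    apply hcov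
    right
    simp only [mem_iUnion] at hy ⊢
    obtain ⟨k, _, hk⟩ := hy
    exact ⟨k, hk⟩)
  classical
  refine ⟨insert i0 t, ?_⟩
  rintro y (hy | hy)
  · rw [mem_singleton_iff.1 hy]
    exact mem_biUnion (Finset.mem_insert_self _ _) hi0
  · obtain ⟨k, hk⟩ := mem_iUnion.1 hy
    by_cases hkN : k < N
    · have : y ∈ ⋃ i ∈ t, U i := ht (mem_biUnion (Finset.mem_coe.2 (Finset.mem_range.2 hkN)) hk)
      simp only [mem_iUnion] at this ⊢
      obtain ⟨i, hi, hi2⟩ := this
      exact ⟨i, Finset.mem_insert_of_mem hi, hi2⟩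
    · have h1 := hXc k hk
      have h2 := hN k (not_lt.1 hkN)
      rw [Real.dist_eq, sub_zero] at h2
      have h3 : y ∈ Metric.ball x ε := by
        rw [Metric.mem_ball]
        exact lt_of_le_of_lt (Metric.mem_closedBall.1 h1) (lt_of_le_of_lt (le_abs_self _) h2)
      exact mem_biUnion (Finset.mem_insert_self _ _) (hball h3)

lemma isCompact_seg (a b : E) : IsCompact (segment ℝ a b) := by
  rw [segment_eq_image']
  exact isCompact_Icc.image (by fun_prop)

lemma seg_cover {a b q : E} (hq : q ∈ segment ℝ a b) :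
    segment ℝ a b ⊆ segment ℝ a q ∪ segment ℝ q b := by
  rw [segment_eq_image'] at hq ⊢
  obtain ⟨η, ⟨hη0, hη1⟩, rfl⟩ := hq
  rintro _ ⟨θ, ⟨hθ0, hθ1⟩, rfl⟩
  simp only
  rcases le_or_gt θ η with h | h
  · left
    rw [segment_eq_image']
    rcases eq_or_lt_of_le hη0 with h0 | h0
    · refine ⟨0, ⟨le_rfl, zero_le_one⟩, ?_⟩
      have : θ = 0 := by linarith
      simp [this]
    · refine ⟨θ / η, ⟨by positivity, (div_le_one h0).2 h⟩, ?_⟩
      simp only [add_sub_cancel_left, smul_smul]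
      rw [div_mul_cancel₀ _ h0.ne']
  · right
    rw [segment_eq_image']
    have h1 : 0 < 1 - η := by linarith
    refine ⟨(θ - η) / (1 - η), ⟨by apply div_nonneg <;> linarith, (div_le_one h1).2 (by linarith)⟩, ?_⟩
    have e : b - (a + η • (b - a)) = (1 - η) • (b - a) := by module
    simp only [e, smul_smul]
    rw [div_mul_cancel₀ _ h1.ne']
    module

lemma seg_diff {a b c : E} (hc : c ∉ openSegment ℝ a b) : IsPreconnected (segment ℝ a b \ {c}) := by
  have e : segment ℝ a b \ {c} = (fun θ : ℝ => a + θ • (b - a)) ''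
      {θ : ℝ | θ ∈ Icc (0:ℝ) 1 ∧ a + θ • (b - a) ≠ c} := by
    rw [segment_eq_image']
    ext x
    constructor
    · rintro ⟨⟨θ, hθ, rfl⟩, hx⟩
      exact ⟨θ, ⟨hθ, hx⟩, rfl⟩
    · rintro ⟨θ, ⟨hθ, hx⟩, rfl⟩
      exact ⟨⟨θ, hθ, rfl⟩, hx⟩
  rw [e]
  have hord : OrdConnected {θ : ℝ | θ ∈ Icc (0:ℝ) 1 ∧ a + θ • (b - a) ≠ c} := by
    constructor
    rintro x ⟨hx, hx'⟩ y ⟨hy, hy'⟩ z ⟨hz1, hz2⟩
    rcases eq_or_lt_of_le hz1 with h | h
    · rw [← h]; exact ⟨hx, hx'⟩
    · rcases eq_or_lt_of_le hz2 with h' | h'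
      · rw [h']; exact ⟨hy, hy'⟩
      · refine ⟨⟨hx.1.trans hz1, hz2.trans hy.2⟩, fun hzc => hc ?_⟩
        rw [openSegment_eq_image']
        exact ⟨z, ⟨lt_of_le_of_lt hx.1 h, lt_of_lt_of_le h' hy.2⟩, hzc⟩
  exact hord.isPreconnected.image _ (by fun_prop)

lemma comp_sub {S A B : Set E} {x a : E} (hS : S ⊆ A ∪ B) (hA : IsClosed A) (hB : IsClosed B)
    (hAB : A ∩ B ⊆ {x}) (ha : a ∈ A) : connectedComponentIn (S \ {x}) a ⊆ A := by
  by_cases haS : a ∈ S \ {x}
  · intro y hy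
    by_contra hyA
    have hyS : y ∈ S \ {x} := connectedComponentIn_subset _ _ hy
    have hyB : y ∈ B := (hS hyS.1).resolve_left hyA
    have := (isPreconnected_closed_iff.1 (isPreconnected_connectedComponentIn
      (F := S \ {x}) (x := a))) A B hA hB
      ((connectedComponentIn_subset _ _).trans (diff_subset.trans hS))
      ⟨a, mem_connectedComponentIn haS, ha⟩ ⟨y, hy, hyB⟩
    obtain ⟨z, hz1, hz2⟩ := this
    exact (connectedComponentIn_subset _ _ hz1).2 (hAB hz2)
  · rw [connectedComponentIn_eq_empty haS]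
    exact empty_subset _

end general

variable {E : Type*} [NormedAddCommGroup E] [InnerProductSpace ℝ E] [CompleteSpace E]
  [MeasurableSpace E] [BorelSpace E]

namespace Cfg

variable (W : Cfg E)

noncomputable def spine (k : ℕ) : Set E := segment ℝ (W.p k) (W.p (k + 1))
noncomputable def leaf (k : ℕ) : Set E := segment ℝ (W.a k) (W.p (k + 1))
noncomputable def X (k : ℕ) : Set E := W.spine k ∪ W.leaf k
noncomputable def tail (n : ℕ) : Set E := {W.pinf} ∪ ⋃ k, W.X (n + k)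
/-- The tree. -/
noncomputable def S : Set E := {W.pinf} ∪ ⋃ k, W.X k
/-- The terminals. -/
noncomputable def C : Set E := {W.pinf} ∪ ⋃ k, ({W.p 0, W.a k} : Set E)

/-- Terminals, better form. -/
noncomputable def C' : Set E := insert (W.p 0) ({W.pinf} ∪ ⋃ k, ({W.a k} : Set E))

lemma X_sub (k : ℕ) : W.X k ⊆ Metric.closedBall W.pinf (4 * lam ^ k) := by
  have h1 : W.p k ∈ Metric.closedBall W.pinf (4 * lam ^ k) := by
    rw [Metric.mem_closedBall]
    have := W.dist_p_inf k; have := lam_pow_pos k; linarith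
  have h2 : W.p (k + 1) ∈ Metric.closedBall W.pinf (4 * lam ^ k) := by
    rw [Metric.mem_closedBall]
    have := W.dist_p_inf (k + 1); have := lam_pow_pos k; have := lam_succ_le k; linarith
  have h3 : W.a k ∈ Metric.closedBall W.pinf (4 * lam ^ k) := by
    rw [Metric.mem_closedBall]
    have h4 := dist_triangle (W.a k) (W.p (k + 1)) W.pinf
    rw [W.dist_a] at h4
    have := W.dist_p_inf (k + 1); have := lam_pow_pos k; have := lam_succ_le k; linarith
  exact union_subset ((convex_closedBall _ _).segment_subset h1 h2)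
    ((convex_closedBall _ _).segment_subset h3 h2)

lemma X_compact (k : ℕ) : IsCompact (W.X k) := (isCompact_seg _ _).union (isCompact_seg _ _)

lemma tend4 (n : ℕ) : Tendsto (fun k : ℕ => 4 * lam ^ (n + k)) atTop (𝓝 0) := by
  have h : Tendsto (fun k : ℕ => 4 * lam ^ (n + k)) atTop (𝓝 (4 * 0)) := by
    apply Tendsto.const_mul
    have := tend_lam.comp (tendsto_add_atTop_nat n)
    refine this.congr (fun k => ?_)
    simp [Function.comp, add_comm]
  simpa using h

lemma tail_compact (n : ℕ) : IsCompact (W.tail n) :=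
  compact_shrink (fun k => W.X_compact (n + k)) (tend4 n) (fun k => W.X_sub (n + k))

lemma S_eq : W.S = W.tail 0 := by
  unfold S tail; simp

lemma S_compact : IsCompact W.S := by rw [S_eq]; exact W.tail_compact 0

lemma C'_compact : IsCompact W.C' := by
  apply IsCompact.insert
  refine compact_shrink (fun k => isCompact_singleton) (c := fun k => 4 * lam ^ (0 + k)) (tend4 0) ?_
  intro k x hx
  rw [mem_singleton_iff.1 hx, zero_add]
  exact W.X_sub k (Or.inr (left_mem_segment ℝ _ _))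

lemma p_mem_X (k : ℕ) : W.p k ∈ W.X k := Or.inl (left_mem_segment ℝ _ _)
lemma p_succ_mem_X (k : ℕ) : W.p (k + 1) ∈ W.X k := Or.inl (right_mem_segment ℝ _ _)
lemma a_mem_X (k : ℕ) : W.a k ∈ W.X k := Or.inr (left_mem_segment ℝ _ _)

lemma X_sub_S (k : ℕ) : W.X k ⊆ W.S := fun x hx => Or.inr (mem_iUnion.2 ⟨k, hx⟩)

lemma C'_sub_S : W.C' ⊆ W.S := by
  rintro x (rfl | hx | hx)
  · exact W.X_sub_S 0 (W.p_mem_X 0)
  · exact Or.inl hx
  · obtain ⟨k, hk⟩ := mem_iUnion.1 hx
    rw [mem_singleton_iff.1 hk]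
    exact W.X_sub_S k (W.a_mem_X k)

/-! heights -/

noncomputable def ht (x : E) : ℝ := ⟪W.g, x⟫_ℝ

lemma ht_lt {i j : ℕ} (h : i < j) : W.ht (W.p i) < W.ht (W.p j) := W.gp_strictMono h
lemma ht_le {i j : ℕ} (h : i ≤ j) : W.ht (W.p i) ≤ W.ht (W.p j) := W.gp_strictMono.monotone h
lemma ht_eq {i j : ℕ} (h : W.ht (W.p i) = W.ht (W.p j)) : i = j := W.gp_strictMono.injective h
lemma ht_inf (i : ℕ) : W.ht (W.p i) < W.ht W.pinf := W.gp_le_inf i
lemma ht_a (k : ℕ) : W.ht (W.a k) = W.ht (W.p (k + 1)) := W.ga k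

lemma ht_spine {k : ℕ} {x : E} (hx : x ∈ W.spine k) :
    ∃ θ : ℝ, 0 ≤ θ ∧ θ ≤ 1 ∧ x = W.p k + θ • (W.p (k + 1) - W.p k) ∧
      W.ht x = W.ht (W.p k) + θ * (lam ^ k * W.c) := by
  unfold spine at hx
  rw [segment_eq_image'] at hx
  obtain ⟨θ, ⟨h0, h1⟩, rfl⟩ := hx
  refine ⟨θ, h0, h1, rfl, ?_⟩
  unfold ht
  have e : W.p (k + 1) - W.p k = lam ^ k • W.w k := by rw [p_succ]; abel
  simp only [e]
  rw [inner_add_right, inner_smul_right, inner_smul_right, W.hg]

lemma ht_leaf {k : ℕ} {x : E} (hx : x ∈ W.leaf k) : W.ht x = W.ht (W.p (k + 1)) := by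
  unfold leaf at hx
  rw [segment_eq_image'] at hx
  obtain ⟨θ, ⟨h0, h1⟩, rfl⟩ := hx
  have h2 := W.ht_a k
  unfold ht at *
  simp only
  rw [inner_add_right, inner_smul_right, inner_sub_right, h2]
  ring

lemma ht_spine_le {k : ℕ} {x : E} (hx : x ∈ W.spine k) :
    W.ht (W.p k) ≤ W.ht x ∧ W.ht x ≤ W.ht (W.p (k + 1)) ∧
    (W.ht x = W.ht (W.p k) → x = W.p k) ∧ (W.ht x = W.ht (W.p (k + 1)) → x = W.p (k + 1)) := by
  obtain ⟨θ, h0, h1, h2, h3⟩ := W.ht_spine hx
  have h4 : 0 < lam ^ k * W.c := mul_pos (lam_pow_pos k) W.hc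
  have h5 : W.ht (W.p (k + 1)) = W.ht (W.p k) + lam ^ k * W.c := W.gp k
  refine ⟨by rw [h3]; nlinarith, by rw [h3, h5]; nlinarith, ?_, ?_⟩
  · intro h
    rw [h3] at h
    have : θ = 0 := by
      have : θ * (lam ^ k * W.c) = 0 := by linarith
      rcases mul_eq_zero.1 this with h | h
      · exact h
      · exact absurd h h4.ne'
    rw [h2, this]; simp
  · intro h
    rw [h3, h5] at h
    have : θ = 1 := by
      have : (θ - 1) * (lam ^ k * W.c) = 0 := by linarith
      rcases mul_eq_zero.1 this with h | h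
      · linarith
      · exact absurd h h4.ne'
    rw [h2, this]; simp

lemma ht_X {k : ℕ} {x : E} (hx : x ∈ W.X k) :
    W.ht (W.p k) ≤ W.ht x ∧ W.ht x ≤ W.ht (W.p (k + 1)) ∧ (W.ht x = W.ht (W.p k) → x = W.p k) := by
  rcases hx with hx | hx
  · have := W.ht_spine_le hx
    exact ⟨this.1, this.2.1, this.2.2.1⟩
  · have h := W.ht_leaf hx
    have h1 := W.ht_lt (Nat.lt_succ_self k)
    refine ⟨by rw [h]; exact h1.le, h.le, fun h' => ?_⟩
    rw [h] at h'
    exact absurd h' h1.ne'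

lemma a_ne_p (k j : ℕ) : W.a k ≠ W.p j := by
  intro h
  have h1 := W.ht_a k
  rw [h] at h1
  have h2 := W.ht_eq h1
  subst h2
  have h3 := W.dist_a k
  rw [h, dist_self] at h3
  exact absurd h3 (lam_pow_pos _).ne

lemma a_inj {k j : ℕ} (h : W.a k = W.a j) : k = j := by
  have h1 := W.ht_a k
  rw [h, W.ht_a j] at h1
  have := W.ht_eq h1
  omega

lemma C'_cases {c : E} (hc : c ∈ W.C') : c = W.p 0 ∨ c = W.pinf ∨ ∃ k, c = W.a k := by
  rcases hc with h | h | h
  · exact Or.inl h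
  · exact Or.inr (Or.inl h)
  · obtain ⟨k, hk⟩ := mem_iUnion.1 h
    exact Or.inr (Or.inr ⟨k, hk⟩)

lemma p_ne_C {c : E} (hc : c ∈ W.C') (k : ℕ) : W.p (k + 1) ≠ c := by
  rcases W.C'_cases hc with rfl | rfl | ⟨j, rfl⟩
  · intro h
    have := W.ht_lt (Nat.succ_pos k)
    rw [h] at this; exact lt_irrefl _ this
  · intro h
    have := W.ht_inf (k + 1)
    rw [h] at this; exact lt_irrefl _ this
  · exact (W.a_ne_p j (k + 1)).symm

lemma C_notin_open_spine {c : E} (hc : c ∈ W.C') (k : ℕ) :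
    c ∉ openSegment ℝ (W.p k) (W.p (k + 1)) := by
  intro h
  have h4 : 0 < lam ^ k * W.c := mul_pos (lam_pow_pos k) W.hc
  have h5 : W.ht (W.p (k + 1)) = W.ht (W.p k) + lam ^ k * W.c := W.gp k
  have hh : W.ht (W.p k) < W.ht c ∧ W.ht c < W.ht (W.p (k + 1)) := by
    rw [openSegment_eq_image'] at h
    obtain ⟨θ, ⟨h0, h1⟩, rfl⟩ := h
    have e : W.p (k + 1) - W.p k = lam ^ k • W.w k := by rw [p_succ]; abel
    have e2 : W.ht (W.p k + θ • (W.p (k + 1) - W.p k)) = W.ht (W.p k) + θ * (lam ^ k * W.c) := by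
      unfold ht
      rw [e, inner_add_right, inner_smul_right, inner_smul_right, W.hg]
    simp only at e2 ⊢
    rw [e2, h5]
    constructor <;> nlinarith
  rcases W.C'_cases hc with rfl | rfl | ⟨j, rfl⟩
  · have := W.ht_le (Nat.zero_le k)
    linarith [hh.1]
  · have := W.ht_inf (k + 1)
    linarith [hh.2]
  · rw [W.ht_a] at hh
    have h1 := W.gp_strictMono.lt_iff_lt.1 hh.1
    have h2 := W.gp_strictMono.lt_iff_lt.1 hh.2
    omega

lemma C_notin_open_leaf {c : E} (hc : c ∈ W.C') (k : ℕ) :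
    c ∉ openSegment ℝ (W.a k) (W.p (k + 1)) := by
  intro h
  have h1 : W.ht c = W.ht (W.p (k + 1)) := W.ht_leaf (openSegment_subset_segment ℝ _ _ h)
  rcases W.C'_cases hc with rfl | rfl | ⟨j, rfl⟩
  · have := W.ht_lt (Nat.succ_pos k)
    exact absurd h1 this.ne
  · have := W.ht_inf (k + 1)
    exact absurd h1 this.ne'
  · rw [W.ht_a] at h1
    have h2 := W.ht_eq h1
    have h3 : j = k := by omega
    subst h3
    rw [openSegment_eq_image'] at h
    obtain ⟨θ, ⟨h0, h1⟩, h2⟩ := h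
    simp only [add_eq_left, smul_eq_zero] at h2
    rcases h2 with h2 | h2
    · exact absurd h2 h0.ne'
    · exact W.a_ne_p j (j + 1) (sub_eq_zero.1 h2).symm

lemma S_diff {c : E} (hc : c ∈ W.C') : IsPreconnected (W.S \ {c}) := by
  have hY : ∀ k, IsPreconnected (W.X k \ {c}) := by
    intro k
    unfold X
    rw [union_diff_distrib]
    exact IsPreconnected.union (W.p (k + 1)) ⟨right_mem_segment ℝ _ _, W.p_ne_C hc k⟩
      ⟨right_mem_segment ℝ _ _, W.p_ne_C hc k⟩ (seg_diff (W.C_notin_open_spine hc k))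
      (seg_diff (W.C_notin_open_leaf hc k))
  have hU : IsPreconnected (⋃ k, W.X k \ {c}) := by
    apply IsPreconnected.iUnion_of_chain hY
    intro k
    exact ⟨W.p (k + 1), ⟨W.p_succ_mem_X k, W.p_ne_C hc k⟩, ⟨W.p_mem_X (k + 1), W.p_ne_C hc k⟩⟩
  have hcl : W.pinf ∈ closure (⋃ k, W.X k \ {c}) := by
    apply mem_closure_of_tendsto (W.tendsto_p.comp (tendsto_add_atTop_nat 1))
    apply Eventually.of_forall
    intro k
    exact mem_iUnion.2 ⟨k, W.p_succ_mem_X k, W.p_ne_C hc k⟩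
  apply hU.subset_closure
  · intro x hx
    obtain ⟨k, hk, hk2⟩ := mem_iUnion.1 hx
    exact ⟨W.X_sub_S k hk, hk2⟩
  · rintro x ⟨hx | hx, hx2⟩
    · rw [mem_singleton_iff.1 hx]; exact hcl
    · obtain ⟨k, hk⟩ := mem_iUnion.1 hx
      exact subset_closure (mem_iUnion.2 ⟨k, hk, hx2⟩)

lemma S_conn : IsConnected W.S := by
  refine ⟨⟨W.pinf, Or.inl rfl⟩, ?_⟩
  have hU : IsPreconnected (⋃ k, W.X k) := by
    apply IsPreconnected.iUnion_of_chain
    · intro k
      exact IsPreconnected.union (W.p (k + 1)) (right_mem_segment ℝ _ _) (right_mem_segment ℝ _ _)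
        (convex_segment _ _).isPreconnected (convex_segment _ _).isPreconnected
    · intro k
      exact ⟨W.p (k + 1), W.p_succ_mem_X k, W.p_mem_X (k + 1)⟩
  have hcl : W.pinf ∈ closure (⋃ k, W.X k) := by
    apply mem_closure_of_tendsto (W.tendsto_p.comp (tendsto_add_atTop_nat 1))
    apply Eventually.of_forall
    intro k
    exact mem_iUnion.2 ⟨k, W.p_succ_mem_X k⟩
  apply hU.subset_closure
  · intro x hx; exact Or.inr hx
  · rintro x (hx | hx)
    · rw [mem_singleton_iff.1 hx]; exact hcl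
    · exact subset_closure hx

/-- Measure of the tree. -/
lemma S_meas : μH[1] W.S ≤ ENNReal.ofReal Ltot := by
  have h1 : μH[1] W.S ≤ μH[1] ({W.pinf} : Set E) + ∑' k, μH[1] (W.X k) :=
    (measure_union_le _ _).trans (add_le_add le_rfl (measure_iUnion_le _))
  rw [noAtom, zero_add] at h1
  refine h1.trans ?_
  have h2 : ∀ k, μH[1] (W.X k) ≤ ENNReal.ofReal ((1 + lam) * lam ^ k) := by
    intro k
    refine (measure_union_le _ _).trans ?_
    unfold spine leaf
    rw [hausdorffMeasure_segment, hausdorffMeasure_segment, edist_dist, edist_dist, W.dist_p_succ,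
      W.dist_a, ← ENNReal.ofReal_add (lam_pow_pos _).le (lam_pow_pos _).le]
    apply ENNReal.ofReal_le_ofReal
    rw [pow_succ]; linarith
  refine (ENNReal.tsum_le_tsum h2).trans ?_
  have hs : Summable (fun k : ℕ => (1 + lam) * lam ^ k) :=
    (summable_geometric_of_lt_one lam_pos.le lam_lt).mul_left _
  rw [← ENNReal.ofReal_tsum_of_nonneg (fun k => by have := lam_pos; positivity) hs, tsum_mul_left,
    tsum_geometric_of_lt_one lam_pos.le lam_lt]
  apply ENNReal.ofReal_le_ofReal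
  unfold Ltot
  rw [div_eq_mul_inv]

lemma comp_of {T : Set E} (h1 : IsCompact T) (h2 : IsPreconnected T) (h3 : W.C' ⊆ T)
    (h4 : μH[1] T ≤ ENNReal.ofReal Ltot) : W.Comp T :=
  ⟨h1, h2, h3 (Or.inl rfl), fun k => h3 (Or.inr (Or.inr (mem_iUnion.2 ⟨k, rfl⟩))),
    h3 (Or.inr (Or.inl rfl)), h4⟩

lemma S_meas_eq : μH[1] W.S = ENNReal.ofReal Ltot :=
  le_antisymm W.S_meas (lower (W.comp_of W.S_compact W.S_conn.isPreconnected W.C'_sub_S W.S_meas))

/-- Uniqueness. -/
lemma unique {T : Set E} (hT : W.Comp T) : T = W.S := by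
  obtain ⟨ρ, q, hc⟩ := exists_cuts hT
  obtain ⟨hb, hs⟩ := structure_pieces hT hc
  have hqm : ∀ m, q m ∈ W.spine m := by
    intro m
    obtain ⟨t, h0, h1, h2⟩ := (hs m).1
    unfold spine
    rw [segment_eq_image']
    have hl := lam_pow_pos m
    refine ⟨t / lam ^ m, ⟨by positivity, (div_le_one hl).2 h1⟩, ?_⟩
    have e : W.p (m + 1) - W.p m = lam ^ m • W.w m := by rw [p_succ]; abel
    simp only [e, smul_smul]
    rw [div_mul_cancel₀ _ hl.ne', h2]
  have hspineconv : ∀ m, Convex ℝ (W.spine m) := fun m => convex_segment _ _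
  apply Subset.antisymm
  · -- T ⊆ S
    intro x hx
    by_cases h0 : W.f 0 x ≤ ρ 0
    · by_cases hall : ∀ m, W.f m x ≤ ρ m
      · left
        have h1 : ∀ m, dist x (W.p (m + 1)) ≤ lam ^ m := by
          intro m
          have h2 := hall m
          have h3 := (hc m).r2
          have h4 := lam_pow_pos m
          unfold f at h2
          linarith
        have h2 : Tendsto (fun m => W.p (m + 1)) atTop (𝓝 x) := by
          rw [tendsto_iff_dist_tendsto_zero]
          refine squeeze_zero (fun m => dist_nonneg) (fun m => ?_) tend_lam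
          rw [dist_comm]; exact h1 m
        exact tendsto_nhds_unique h2 (W.tendsto_p.comp (tendsto_add_atTop_nat 1))
      · push Not at hall
        have hex : ∃ m, ρ m < W.f m x := hall
        classical
        set n := Nat.find hex with hn
        have hn1 : ρ n < W.f n x := Nat.find_spec hex
        have hn0 : n ≠ 0 := by
          intro h
          rw [h] at hn1
          linarith
        obtain ⟨m, hm⟩ := Nat.exists_eq_succ_of_ne_zero hn0
        have hm1 : W.f m x ≤ ρ m := not_lt.1 (Nat.find_min hex (by omega : m < n))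
        rw [hm] at hn1
        have hxp : x ∈ (T ∩ W.f m ⁻¹' Iic (ρ m)) ∩ W.f (m + 1) ⁻¹' Ici (ρ (m + 1)) :=
          ⟨⟨hx, hm1⟩, le_of_lt hn1⟩
        rw [(hs m).2] at hxp
        rcases hxp with (h | h) | h
        · exact W.X_sub_S m (Or.inl ((hspineconv m).segment_subset (hqm m)
            (right_mem_segment ℝ _ _) h))
        · exact W.X_sub_S m (Or.inr h)
        · exact W.X_sub_S (m + 1) (Or.inl ((hspineconv (m + 1)).segment_subset (hqm (m + 1))
            (left_mem_segment ℝ _ _) h))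
    · have hxp : x ∈ T ∩ W.f 0 ⁻¹' Ici (ρ 0) := ⟨hx, (not_le.1 h0).le⟩
      rw [hb] at hxp
      exact W.X_sub_S 0 (Or.inl ((hspineconv 0).segment_subset (left_mem_segment ℝ _ _) (hqm 0) hxp))
  · -- S ⊆ T
    have hpT : ∀ m, (T ∩ W.f m ⁻¹' Iic (ρ m)) ∩ W.f (m + 1) ⁻¹' Ici (ρ (m + 1)) ⊆ T :=
      fun m => inter_subset_left.trans inter_subset_left
    rintro x (hx | hx)
    · rw [mem_singleton_iff.1 hx]; exact hT.hinf
    · obtain ⟨m, hm⟩ := mem_iUnion.1 hx
      rcases hm with hm | hm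
      · rcases seg_cover (hqm m) hm with h | h
        · cases m with
          | zero =>
            have : x ∈ T ∩ W.f 0 ⁻¹' Ici (ρ 0) := by rw [hb]; exact h
            exact this.1
          | succ m =>
            apply hpT m
            rw [(hs m).2]
            right
            rw [segment_symm]; exact h
        · apply hpT m
          rw [(hs m).2]
          exact Or.inl (Or.inl h)
      · apply hpT m
        rw [(hs m).2]
        exact Or.inl (Or.inr hm)

/-- Branching points. -/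
lemma branch (m : ℕ) : W.p (m + 1) ∈ W.S ∧ ∃ a ∈ W.S \ {W.p (m + 1)}, ∃ b ∈ W.S \ {W.p (m + 1)},
    ∃ e ∈ W.S \ {W.p (m + 1)},
      b ∉ connectedComponentIn (W.S \ {W.p (m + 1)}) a ∧
      e ∉ connectedComponentIn (W.S \ {W.p (m + 1)}) a ∧
      e ∉ connectedComponentIn (W.S \ {W.p (m + 1)}) b := by
  set x := W.p (m + 1) with hx
  set A : Set E := (⋃ k ∈ Finset.range m, W.X k) ∪ W.spine m with hA
  set B : Set E := W.tail (m + 1) with hB
  set D : Set E := W.leaf m with hD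
  have hAc : IsCompact A := ((Finset.range m).isCompact_biUnion (fun k _ => W.X_compact k)).union
    (isCompact_seg _ _)
  have hBc : IsCompact B := W.tail_compact _
  have hDc : IsCompact D := isCompact_seg _ _
  have hS : W.S ⊆ A ∪ (B ∪ D) := by
    rintro y (hy | hy)
    · exact Or.inr (Or.inl (Or.inl hy))
    · obtain ⟨k, hk⟩ := mem_iUnion.1 hy
      rcases lt_trichotomy k m with h | h | h
      · exact Or.inl (Or.inl (mem_biUnion (Finset.mem_coe.2 (Finset.mem_range.2 h)) hk))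
      · subst h
        rcases hk with hk | hk
        · exact Or.inl (Or.inr hk)
        · exact Or.inr (Or.inr hk)
      · refine Or.inr (Or.inl (Or.inr (mem_iUnion.2 ⟨k - (m + 1), ?_⟩)))
        rw [show m + 1 + (k - (m + 1)) = k by omega]
        exact hk
  have htA : ∀ y ∈ A, W.ht y ≤ W.ht x ∧ (W.ht y = W.ht x → y = x) := by
    rintro y (hy | hy)
    · simp only [mem_iUnion, Finset.mem_range] at hy
      obtain ⟨k, hk, hy⟩ := hy
      have h1 := (W.ht_X hy).2.1
      have h2 := W.ht_le (Nat.succ_le_of_lt hk)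
      have h3 := W.ht_lt (Nat.lt_succ_self m)
      have h4 : W.ht y < W.ht x := lt_of_le_of_lt (h1.trans h2) h3
      exact ⟨h4.le, fun h => absurd h h4.ne⟩
    · have := W.ht_spine_le hy
      exact ⟨this.2.1, this.2.2.2⟩
  have htB : ∀ y ∈ B, W.ht x ≤ W.ht y ∧ (W.ht y = W.ht x → y = x) := by
    rintro y (hy | hy)
    · rw [mem_singleton_iff.1 hy]
      have := W.ht_inf (m + 1)
      exact ⟨this.le, fun h => absurd h this.ne'⟩
    · obtain ⟨k, hk⟩ := mem_iUnion.1 hy
      have h1 := W.ht_X hk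
      have h2 := W.ht_le (Nat.le_add_right (m + 1) k)
      refine ⟨h2.trans h1.1, fun h => ?_⟩
      have h3 : W.ht (W.p (m + 1 + k)) = W.ht x := le_antisymm (h ▸ h1.1) h2
      have h4 : m + 1 + k = m + 1 := W.ht_eq h3
      have h5 := h1.2.2 (by rw [h, h3])
      rw [h5, h4]
  have htD : ∀ y ∈ D, W.ht y = W.ht x := fun y hy => W.ht_leaf hy
  have hAB : A ∩ (B ∪ D) ⊆ {x} := by
    rintro y ⟨hyA, hyB | hyD⟩
    · exact (htA y hyA).2 (le_antisymm (htA y hyA).1 (htB y hyB).1)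
    · exact (htA y hyA).2 (htD y hyD)
  have hDAB : D ∩ (A ∪ B) ⊆ {x} := by
    rintro y ⟨hyD, hyA | hyB⟩
    · exact (htA y hyA).2 (htD y hyD)
    · exact (htB y hyB).2 (htD y hyD)
  have hne1 : W.p m ≠ x := fun h => absurd (W.ht_eq (congrArg W.ht h)) (by omega)
  have hne2 : W.a m ≠ x := W.a_ne_p m (m + 1)
  have hne3 : W.p (m + 2) ≠ x := fun h => absurd (W.ht_eq (congrArg W.ht h)) (by omega)
  have hpA : W.p m ∈ A := Or.inr (left_mem_segment ℝ _ _)
  have haD : W.a m ∈ D := left_mem_segment ℝ _ _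
  have hpB : W.p (m + 2) ∈ B := Or.inr (mem_iUnion.2 ⟨0, W.p_succ_mem_X (m + 1)⟩)
  have cA := comp_sub (a := W.p m) hS hAc.isClosed (hBc.union hDc).isClosed hAB hpA
  have cD := comp_sub (a := W.a m) (x := x) (A := D) (B := A ∪ B) (S := W.S) (by
    intro y hy
    rcases hS hy with h | h | h
    · exact Or.inr (Or.inl h)
    · exact Or.inr (Or.inr h)
    · exact Or.inl h) hDc.isClosed (hAc.union hBc).isClosed hDAB haD
  refine ⟨W.X_sub_S m (W.p_succ_mem_X m), W.p m, ⟨W.X_sub_S m (W.p_mem_X m), hne1⟩, W.a m,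
    ⟨W.X_sub_S m (W.a_mem_X m), hne2⟩, W.p (m + 2), ⟨W.X_sub_S (m + 1) (W.p_succ_mem_X (m + 1)), hne3⟩,
    ?_, ?_, ?_⟩
  · intro h
    exact hne2 (hAB ⟨cA h, Or.inr haD⟩)
  · intro h
    exact hne3 (hAB ⟨cA h, Or.inl hpB⟩)
  · intro h
    exact hne3 (hDAB ⟨cD h, Or.inr hpB⟩)

theorem main_abs :
    IsCompact W.C' ∧
    (IsCompact W.S ∧ IsConnected W.S ∧ W.C' ⊆ W.S ∧
      ∀ T : Set E, IsCompact T → IsConnected T → W.C' ⊆ T →
        μH[1] W.S ≤ μH[1] T ∧ (μH[1] T ≤ μH[1] W.S → T = W.S)) ∧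
    (∀ c ∈ W.C', IsPreconnected (W.S \ {c})) ∧
    Set.Infinite {x | x ∈ W.S ∧ ∃ a ∈ W.S \ {x}, ∃ b ∈ W.S \ {x}, ∃ e ∈ W.S \ {x},
        b ∉ connectedComponentIn (W.S \ {x}) a ∧ e ∉ connectedComponentIn (W.S \ {x}) a ∧
        e ∉ connectedComponentIn (W.S \ {x}) b} := by
  refine ⟨W.C'_compact, ⟨W.S_compact, W.S_conn, W.C'_sub_S, ?_⟩, fun c hc => W.S_diff hc, ?_⟩
  · intro T h1 h2 h3
    rw [W.S_meas_eq]
    constructor
    · rcases le_total (μH[1] T) (ENNReal.ofReal Ltot) with h4 | h4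
      · exact lower (W.comp_of h1 h2.isPreconnected h3 h4)
      · exact h4
    · intro h4
      exact W.unique (W.comp_of h1 h2.isPreconnected h3 h4)
  · refine Set.infinite_of_injective_forall_mem (f := fun m : ℕ => W.p (m + 1)) ?_ ?_
    · intro i j h
      have := W.ht_eq (congrArg W.ht h)
      omega
    · intro m
      exact W.branch m

end Cfg

end Pool.Agent.H270R2.St
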